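import Mathlib

set_option autoImplicit false
open MeasureTheory Real Set

namespace Pool.Agent.H.MP_e522c7_an

noncomputable def p (m : ℕ) (y : ℝ) : ℝ := ((1 + y ^ 2) ^ m)⁻¹

lemma p_pos (m : ℕ) (y : ℝ) : 0 < p m y := by unfold p; positivity

lemma p_le_one (m : ℕ) (y : ℝ) : p m y ≤ 1 := by
  unfold p
  exact inv_le_one_of_one_le₀ (one_le_pow₀ (by nlinarith [sq_nonneg y]))

lemma p_cont (m : ℕ) : Continuous (p m) := by
  unfold p
  exact Continuous.inv₀ (by fun_prop) (fun y => by positivity)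

lemma p_neg (m : ℕ) (y : ℝ) : p m (-y) = p m y := by simp [p]

lemma p_succ (m : ℕ) (y : ℝ) : p (m + 1) y * (1 + y ^ 2) = p m y := by
  unfold p; field_simp; ring

lemma p_mono (m : ℕ) {x y : ℝ} (h : x ^ 2 ≤ y ^ 2) : p m y ≤ p m x := by
  unfold p
  exact inv_anti₀ (by positivity) (pow_le_pow_left₀ (by positivity) (by linarith) m)

lemma p_le_inv {m : ℕ} (hm : 1 ≤ m) (y : ℝ) : p m y ≤ (1 + y ^ 2)⁻¹ := by
  unfold p
  exact inv_anti₀ (by positivity) (le_self_pow₀ (by nlinarith [sq_nonneg y]) (by omega))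

lemma p_int {m : ℕ} (hm : 1 ≤ m) : Integrable (p m) :=
  integrable_inv_one_add_sq.mono' (p_cont m).aestronglyMeasurable
    (Filter.Eventually.of_forall fun y => by
      rw [Real.norm_of_nonneg (p_pos m y).le]; exact p_le_inv hm y)

lemma p_integral {m : ℕ} (hm : 1 ≤ m) : ∫ y, p m y ≤ π := by
  rw [← integral_univ_inv_one_add_sq]
  exact integral_mono (p_int hm) integrable_inv_one_add_sq (p_le_inv hm)

lemma p_half (m : ℕ) {x y : ℝ} (h : x ^ 2 ≤ 4 * y ^ 2) : p m y ≤ 4 ^ m * p m x := by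
  unfold p
  have h1 : (1 + x ^ 2) ^ m ≤ 4 ^ m * (1 + y ^ 2) ^ m := by
    rw [← mul_pow]; exact pow_le_pow_left₀ (by positivity) (by linarith) m
  rw [← div_eq_mul_inv, le_div_iff₀ (by positivity), inv_mul_le_iff₀ (by positivity)]
  linarith

lemma peetre (m : ℕ) (x y : ℝ) :
    p m (x - y) * p m y ≤ 4 ^ m * p m x * (p m (x - y) + p m y) := by
  have h1 := p_pos m (x - y)
  have h2 := p_pos m y
  have h3 := p_pos m x
  have h4 : (0 : ℝ) < 4 ^ m := by positivity
  by_cases h : x ^ 2 ≤ 4 * y ^ 2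
  · have := p_half m h
    nlinarith [mul_pos (mul_pos h4 h3) h2, mul_le_mul_of_nonneg_left this h1.le]
  · have h' : x ^ 2 ≤ 4 * (x - y) ^ 2 := by
      by_contra hh
      push Not at h hh
      nlinarith [sq_nonneg (x - 2 * y)]
    have := p_half m h'
    nlinarith [mul_pos (mul_pos h4 h3) h1, mul_le_mul_of_nonneg_right this h2.le]

noncomputable def s (y : ℝ) : ℝ := (√|y|)⁻¹

lemma s_nonneg (y : ℝ) : 0 ≤ s y := by unfold s; positivity

lemma s_meas : Measurable s := by unfold s; fun_prop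

noncomputable def sig : ℝ → ℝ := indicator (Metric.ball (0 : ℝ) 1) s

lemma sig_nonneg (y : ℝ) : 0 ≤ sig y := indicator_nonneg (fun y _ => s_nonneg y) y

lemma sig_int : Integrable sig := by
  unfold sig
  rw [integrable_indicator_iff measurableSet_ball]
  refine integrableOn_ball_of_norm_le_rpow (α := 1 / 2) (C := 1) (by simp) (by simp; norm_num)
    (Filter.Eventually.of_forall fun y => ?_) s_meas.aestronglyMeasurable
  rw [Real.norm_of_nonneg (s_nonneg y), s, Real.sqrt_eq_rpow, Real.rpow_neg (norm_nonneg _)]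
  simp

lemma s_le (y : ℝ) : s y ≤ 1 + sig y := by
  by_cases h : y ∈ Metric.ball (0 : ℝ) 1
  · rw [sig, indicator_of_mem h]; linarith
  · have h1 : 1 ≤ |y| := by simpa using h
    have : s y ≤ 1 := inv_le_one_of_one_le₀ (Real.one_le_sqrt.2 h1)
    linarith [sig_nonneg y]

lemma s_scale {a : ℝ} (ha : 0 < a) (y : ℝ) : s y = √a * s (a * y) := by
  unfold s
  rw [abs_mul, abs_of_pos ha, Real.sqrt_mul ha.le, mul_inv, ← mul_assoc,
    mul_inv_cancel₀ (Real.sqrt_pos.2 ha).ne', one_mul]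

noncomputable def Cm (m : ℕ) : ℝ := 2 * 4 ^ m * (π + ∫ y, sig y)

lemma Cm_pos (m : ℕ) : 0 < Cm m := by
  have : 0 ≤ ∫ y, sig y := integral_nonneg sig_nonneg
  have := Real.pi_pos
  unfold Cm; positivity

lemma conv1 {g : ℝ → ℝ} (hg : Measurable g) (h0 : ∀ y, 0 ≤ g y) (h1 : ∀ y, g y ≤ 1 + sig y)
    {m : ℕ} (hm : 1 ≤ m) (x : ℝ) :
    Integrable (fun y => g y * (p m (x - y) * p m y)) ∧
      ∫ y, g y * (p m (x - y) * p m y) ≤ Cm m * p m x := by
  have i1 : Integrable (fun y => p m (x - y)) := (p_int hm).comp_sub_left x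
  have iB : Integrable (fun y => 4 ^ m * p m x * (p m (x - y) + p m y + 2 * sig y)) :=
    ((i1.add (p_int hm)).add (sig_int.const_mul 2)).const_mul _
  have hb : ∀ y, g y * (p m (x - y) * p m y) ≤
      4 ^ m * p m x * (p m (x - y) + p m y + 2 * sig y) := by
    intro y
    have a1 := peetre m x y
    have a2 := p_pos m (x - y)
    have a3 := p_pos m y
    have a4 : 0 < 4 ^ m * p m x := mul_pos (by positivity) (p_pos m x)
    have a5 := p_le_one m (x - y)
    have a6 := p_le_one m y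
    have a7 := sig_nonneg y
    calc g y * (p m (x - y) * p m y) ≤ (1 + sig y) * (4 ^ m * p m x * (p m (x - y) + p m y)) :=
          mul_le_mul (h1 y) a1 (by positivity) (by positivity)
      _ = 4 ^ m * p m x * ((1 + sig y) * (p m (x - y) + p m y)) := by ring
      _ ≤ _ := by
          apply mul_le_mul_of_nonneg_left _ a4.le
          nlinarith
  have hI : Integrable (fun y => g y * (p m (x - y) * p m y)) := by
    refine iB.mono' ?_ (Filter.Eventually.of_forall fun y => ?_)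
    · exact (hg.mul (((p_cont m).comp (continuous_const.sub continuous_id)).mul
        (p_cont m)).measurable).aestronglyMeasurable
    · rw [Real.norm_of_nonneg (mul_nonneg (h0 y) (mul_pos (p_pos _ _) (p_pos _ _)).le)]
      exact hb y
  refine ⟨hI, (integral_mono hI iB hb).trans ?_⟩
  have i2 : Integrable (fun y => p m (x - y) + p m y) := i1.add (p_int hm)
  rw [integral_const_mul, integral_add i2 (sig_int.const_mul 2),
    integral_add i1 (p_int hm), integral_const_mul, integral_sub_left_eq_self (p m) volume x]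
  have := p_integral hm
  have a4 : 0 < 4 ^ m * p m x := mul_pos (by positivity) (p_pos m x)
  unfold Cm
  nlinarith

lemma conv1s {g : ℝ → ℝ} (hg : Measurable g) (h0 : ∀ y, 0 ≤ g y) (h1 : ∀ y, g y ≤ 1 + sig y)
    {m : ℕ} (hm : 1 ≤ m) {a : ℝ} (ha : 0 < a) (x : ℝ) :
    Integrable (fun y => g (a * y) * (p m (a * (x - y)) * p m (a * y))) ∧
      ∫ y, g (a * y) * (p m (a * (x - y)) * p m (a * y)) ≤ Cm m / a * p m (a * x) := by
  obtain ⟨i1, i2⟩ := conv1 hg h0 h1 hm (a * x)
  simp_rw [mul_sub]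
  refine ⟨i1.comp_mul_left' ha.ne', ?_⟩
  rw [Measure.integral_comp_mul_left (fun y => g y * (p m (a * x - y) * p m y)) a,
    abs_of_pos (inv_pos.2 ha), smul_eq_mul]
  calc _ ≤ a⁻¹ * (Cm m * p m (a * x)) := mul_le_mul_of_nonneg_left i2 (inv_pos.2 ha).le
    _ = _ := by ring

abbrev X := Fin 3 → ℝ

noncomputable def W (m : ℕ) (r L : ℝ) (ξ : X) : ℝ := p m (r * ξ 0) * p m (r * ξ 1) * p m (L * ξ 2)

noncomputable def S (η : X) : ℝ := s (η 0) * s (η 1)

lemma W_pos (m : ℕ) (r L : ℝ) (ξ : X) : 0 < W m r L ξ :=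
  mul_pos (mul_pos (p_pos _ _) (p_pos _ _)) (p_pos _ _)

lemma W_le_one (m : ℕ) (r L : ℝ) (ξ : X) : W m r L ξ ≤ 1 :=
  mul_le_one₀ (mul_le_one₀ (p_le_one _ _) (p_pos _ _).le (p_le_one _ _)) (p_pos _ _).le
    (p_le_one _ _)

lemma S_nonneg (η : X) : 0 ≤ S η := mul_nonneg (s_nonneg _) (s_nonneg _)

lemma S_meas : Measurable S :=
  (s_meas.comp (measurable_pi_apply 0)).mul (s_meas.comp (measurable_pi_apply 1))

lemma conv3 {m : ℕ} (hm : 1 ≤ m) {r L : ℝ} (hr : 0 < r) (hL : 0 < L) (ξ : X) :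
    Integrable (fun η => S η * (W m r L (ξ - η) * W m r L η)) ∧
      ∫ η, S η * (W m r L (ξ - η) * W m r L η) ≤ Cm m ^ 3 / (r * L) * W m r L ξ := by
  let f : Fin 3 → ℝ → ℝ := ![fun y => √r * (s (r * y) * (p m (r * (ξ 0 - y)) * p m (r * y))),
    fun y => √r * (s (r * y) * (p m (r * (ξ 1 - y)) * p m (r * y))),
    fun y => 1 * (p m (L * (ξ 2 - y)) * p m (L * y))]
  have he : (fun η => S η * (W m r L (ξ - η) * W m r L η)) = fun η : X => ∏ i, f i (η i) := by
    funext η
    simp only [Fin.prod_univ_three, f, S, W, Pi.sub_apply, Matrix.cons_val_zero,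
      Matrix.cons_val_one, Matrix.cons_val]
    rw [s_scale hr (η 0), s_scale hr (η 1)]; ring
  obtain ⟨a0, b0⟩ := conv1s s_meas s_nonneg s_le hm hr (ξ 0)
  obtain ⟨a1, b1⟩ := conv1s s_meas s_nonneg s_le hm hr (ξ 1)
  obtain ⟨a2, b2⟩ := conv1s (g := fun _ => 1) measurable_const (fun _ => zero_le_one)
    (fun y => by linarith [sig_nonneg y]) hm hL (ξ 2)
  rw [he]
  constructor
  · refine Integrable.fintype_prod (μ := fun _ => volume) fun i => ?_
    fin_cases i
    · exact a0.const_mul _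
    · exact a1.const_mul _
    · exact a2
  · rw [integral_fintype_prod_volume_eq_prod, Fin.prod_univ_three]
    simp only [f, Matrix.cons_val_zero, Matrix.cons_val_one, Matrix.cons_val]
    rw [integral_const_mul, integral_const_mul]
    have n0 : 0 ≤ ∫ y, s (r * y) * (p m (r * (ξ 0 - y)) * p m (r * y)) :=
      integral_nonneg fun y => mul_nonneg (s_nonneg _) (mul_pos (p_pos _ _) (p_pos _ _)).le
    have n1 : 0 ≤ ∫ y, s (r * y) * (p m (r * (ξ 1 - y)) * p m (r * y)) :=
      integral_nonneg fun y => mul_nonneg (s_nonneg _) (mul_pos (p_pos _ _) (p_pos _ _)).le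
    have n2 : 0 ≤ ∫ y, 1 * (p m (L * (ξ 2 - y)) * p m (L * y)) :=
      integral_nonneg fun y => mul_nonneg zero_le_one (mul_pos (p_pos _ _) (p_pos _ _)).le
    have hC := Cm_pos m
    have q0 := p_pos m (r * ξ 0)
    have q1 := p_pos m (r * ξ 1)
    have q2 := p_pos m (L * ξ 2)
    calc _ ≤ √r * (Cm m / r * p m (r * ξ 0)) * (√r * (Cm m / r * p m (r * ξ 1))) *
          (Cm m / L * p m (L * ξ 2)) := by gcongr
      _ = (√r * √r) * (Cm m ^ 3 / (r * r * L)) * W m r L ξ := by unfold W; field_simp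
      _ = _ := by rw [Real.mul_self_sqrt hr.le]; field_simp

end Pool.Agent.H.MP_e522c7_an
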