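import Pool.Agent.H.MP_e522c7_an.A

set_option autoImplicit false
open MeasureTheory Real Set Filter Topology

namespace Pool.Agent.H.MP_e522c7_an

noncomputable def q (ξ : X) : ℝ := ∑ i, ξ i ^ 2

lemma q_eq (ξ : X) : q ξ = ξ 0 ^ 2 + ξ 1 ^ 2 + ξ 2 ^ 2 := by simp [q, Fin.sum_univ_three]

lemma q_nonneg (ξ : X) : 0 ≤ q ξ := by rw [q_eq]; positivity

lemma sq_le_q (ξ : X) (i : Fin 3) : ξ i ^ 2 ≤ q ξ :=
  Finset.single_le_sum (f := fun i => ξ i ^ 2) (fun _ _ => sq_nonneg _) (Finset.mem_univ i)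

@[fun_prop] lemma q_cont : Continuous q := by unfold q; fun_prop

noncomputable def k (i : Fin 3) (η : X) : ℝ := η i / q η

lemma k_meas (i : Fin 3) : Measurable (k i) :=
  (measurable_pi_apply i).div q_cont.measurable

lemma ae_ne : ∀ᵐ η : X, η 0 ≠ 0 ∧ η 1 ≠ 0 :=
  (Measure.ae_eval_ne (μ := fun _ : Fin 3 => (volume : Measure ℝ)) 0 0).and
    (Measure.ae_eval_ne (μ := fun _ : Fin 3 => (volume : Measure ℝ)) 1 0)

lemma k_le : ∀ᵐ η : X, ∀ i, |k i η| ≤ S η := by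
  filter_upwards [ae_ne] with η ⟨h0, h1⟩ i
  have a0 : 0 < |η 0| := abs_pos.2 h0
  have a1 : 0 < |η 1| := abs_pos.2 h1
  have hq : 0 < q η := lt_of_lt_of_le (by positivity) (sq_le_q η 0)
  have hs : S η = (√(|η 0| * |η 1|))⁻¹ := by
    rw [S, s, s, Real.sqrt_mul a0.le, mul_inv]
  have h2 : |η 0| * |η 1| ≤ q η := by
    rw [q_eq]
    nlinarith [sq_abs (η 0), sq_abs (η 1), sq_nonneg (|η 0| - |η 1|), sq_nonneg (η 2)]
  have h3 : |η i| ≤ √(q η) := Real.abs_le_sqrt (sq_le_q η i)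
  have h4 : 0 < √(q η) := Real.sqrt_pos.2 hq
  rw [hs, k, abs_div, abs_of_pos hq]
  calc |η i| / q η ≤ √(q η) / q η := by gcongr
    _ = (√(q η))⁻¹ := by
        field_simp; rw [Real.sq_sqrt hq.le]
    _ ≤ _ := inv_anti₀ (Real.sqrt_pos.2 (by positivity)) (Real.sqrt_le_sqrt h2)

@[fun_prop] lemma W_cont (m : ℕ) : Continuous fun z : ℝ × ℝ × X => W m z.1 z.2.1 z.2.2 := by
  have := p_cont m
  unfold W; fun_prop

noncomputable def Bi (i : Fin 3) (f g : X → ℝ) (ξ : X) : ℝ := ∫ η, k i η * (f (ξ - η) * g η)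

lemma Bi_bound {m : ℕ} (hm : 1 ≤ m) {r L : ℝ} (hr : 0 < r) (hL : 0 < L) {f g : X → ℝ}
    (hf : Continuous f) (hg : Continuous g) {α β : ℝ} (h1 : ∀ ξ, |f ξ| ≤ α * W m r L ξ)
    (h2 : ∀ ξ, |g ξ| ≤ β * W m r L ξ) (i : Fin 3) (ξ : X) :
    Integrable (fun η => k i η * (f (ξ - η) * g η)) ∧
      |Bi i f g ξ| ≤ α * β * (Cm m ^ 3 / (r * L) * W m r L ξ) := by
  obtain ⟨c1, c2⟩ := conv3 hm hr hL ξ
  have hα : 0 ≤ α := nonneg_of_mul_nonneg_left ((abs_nonneg _).trans (h1 0)) (W_pos _ _ _ _)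
  have hβ : 0 ≤ β := nonneg_of_mul_nonneg_left ((abs_nonneg _).trans (h2 0)) (W_pos _ _ _ _)
  have hb : ∀ᵐ η : X, ‖k i η * (f (ξ - η) * g η)‖ ≤
      α * β * (S η * (W m r L (ξ - η) * W m r L η)) := by
    filter_upwards [k_le] with η hk
    rw [Real.norm_eq_abs, abs_mul, abs_mul]
    have := W_pos m r L (ξ - η)
    have := S_nonneg η
    calc |k i η| * (|f (ξ - η)| * |g η|)
        ≤ S η * ((α * W m r L (ξ - η)) * (β * W m r L η)) := by
          gcongr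
          exacts [hk i, h1 _, h2 _]
      _ = _ := by ring
  refine ⟨(c1.const_mul _).mono' ?_ hb, ?_⟩
  · exact ((k_meas i).mul ((hf.comp (continuous_const.sub continuous_id)).mul
      hg).measurable).aestronglyMeasurable
  · refine (norm_integral_le_of_norm_le (c1.const_mul _) hb).trans ?_
    rw [integral_const_mul]
    exact mul_le_mul_of_nonneg_left c2 (mul_nonneg hα hβ)

noncomputable def P (m : ℕ) (ξ : X) : ℝ := W m 1 1 ξ

lemma P_pos (m : ℕ) (ξ : X) : 0 < P m ξ := W_pos _ _ _ _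

lemma P_le_one (m : ℕ) (ξ : X) : P m ξ ≤ 1 := W_le_one _ _ _ _

lemma P_eq (m : ℕ) (ξ : X) : P m ξ = p m (ξ 0) * p m (ξ 1) * p m (ξ 2) := by simp [P, W]

lemma W_le_P (m : ℕ) {r L : ℝ} (hr : 1 ≤ r) (hL : 1 ≤ L) (ξ : X) : W m r L ξ ≤ P m ξ := by
  rw [P_eq, W]
  have h : ∀ a y : ℝ, 1 ≤ a → p m (a * y) ≤ p m y := fun a y ha =>
    p_mono m (by rw [mul_pow]; nlinarith [sq_nonneg y, one_le_pow₀ (n := 2) ha])
  have := p_pos m (r * ξ 1)
  have := p_pos m (L * ξ 2)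
  have := p_pos m (ξ 0)
  have := p_pos m (ξ 1)
  gcongr
  exacts [h _ _ hr, h _ _ hr, h _ _ hL]

lemma P_succ (m : ℕ) (ξ : X) : (1 + q ξ) * P (m + 1) ξ ≤ P m ξ := by
  have h : P m ξ = ((1 + ξ 0 ^ 2) * (1 + ξ 1 ^ 2) * (1 + ξ 2 ^ 2)) * P (m + 1) ξ := by
    rw [P_eq, P_eq, ← p_succ m (ξ 0), ← p_succ m (ξ 1), ← p_succ m (ξ 2)]; ring
  rw [h]
  apply mul_le_mul_of_nonneg_right _ (P_pos _ _).le
  rw [q_eq]
  have a0 := sq_nonneg (ξ 0)
  have a1 := sq_nonneg (ξ 1)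
  have a2 := sq_nonneg (ξ 2)
  nlinarith [mul_nonneg a0 a1, mul_nonneg a0 a2, mul_nonneg a1 a2, mul_nonneg (mul_nonneg a0 a1) a2]

lemma P_int {m : ℕ} (hm : 1 ≤ m) : Integrable (P m) := by
  have : P m = fun ξ : X => ∏ i, p m (ξ i) := by
    funext ξ; rw [P_eq, Fin.prod_univ_three]
  rw [this]
  exact Integrable.fintype_prod (μ := fun _ => volume) (f := fun _ => p m) fun _ => p_int hm

lemma sp_int {m : ℕ} (hm : 1 ≤ m) : Integrable (fun y => s y * p m y) := by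
  refine ((p_int hm).add sig_int).mono' (s_meas.mul (p_cont m).measurable).aestronglyMeasurable
    (Eventually.of_forall fun y => ?_)
  rw [Real.norm_of_nonneg (mul_nonneg (s_nonneg _) (p_pos _ _).le), Pi.add_apply]
  nlinarith [s_le y, p_pos m y, p_le_one m y, sig_nonneg y]

lemma SP_int {m : ℕ} (hm : 1 ≤ m) : Integrable (fun η => S η * P m η) := by
  let f : Fin 3 → ℝ → ℝ := ![fun y => s y * p m y, fun y => s y * p m y, p m]
  have : (fun η => S η * P m η) = fun η : X => ∏ i, f i (η i) := by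
    funext η
    simp only [Fin.prod_univ_three, f, S, P_eq, Matrix.cons_val_zero,
      Matrix.cons_val_one, Matrix.cons_val]
    ring
  rw [this]
  refine Integrable.fintype_prod (μ := fun _ => volume) fun i => ?_
  fin_cases i
  exacts [sp_int hm, sp_int hm, p_int hm]

def Dom (m : ℕ) (h : ℝ × X → ℝ) : Prop :=
  Continuous h ∧ ∃ c : ℝ, 0 ≤ c ∧ ∀ z, |h z| ≤ c * P m z.2

lemma Dom.add {m : ℕ} {f g : ℝ × X → ℝ} (hf : Dom m f) (hg : Dom m g) :
    Dom m (fun z => f z + g z) := by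
  obtain ⟨f1, a, ha, f2⟩ := hf
  obtain ⟨g1, b, hb, g2⟩ := hg
  refine ⟨f1.add g1, a + b, by positivity, fun z => ?_⟩
  have := abs_add_le (f z) (g z)
  linarith [f2 z, g2 z]

lemma Dom.mul {m : ℕ} {f : ℝ × X → ℝ} (hf : Dom (m + 1) f) {w : X → ℝ} (hw : Continuous w)
    (hw' : ∀ ξ, |w ξ| ≤ 1 + q ξ) : Dom m (fun z => w z.2 * f z) := by
  obtain ⟨f1, a, ha, f2⟩ := hf
  refine ⟨(hw.comp continuous_snd).mul f1, a, ha, fun z => ?_⟩
  rw [abs_mul]
  have := q_nonneg z.2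
  calc |w z.2| * |f z| ≤ (1 + q z.2) * (a * P (m + 1) z.2) := by
        gcongr
        exacts [hw' _, f2 z]
    _ = a * ((1 + q z.2) * P (m + 1) z.2) := by ring
    _ ≤ _ := mul_le_mul_of_nonneg_left (P_succ m _) ha

lemma abs_coord_le (ξ : X) (i : Fin 3) : |ξ i| ≤ 1 + q ξ := by
  nlinarith [sq_le_q ξ i, sq_abs (ξ i), sq_nonneg (|ξ i| - 1), abs_nonneg (ξ i)]

lemma Dom.coord {m : ℕ} {f : ℝ × X → ℝ} (hf : Dom (m + 1) f) (i : Fin 3) :
    Dom m (fun z => z.2 i * f z) :=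
  hf.mul (w := fun ξ => ξ i) (by fun_prop) (fun ξ => abs_coord_le ξ i)

lemma Dom.negq {m : ℕ} {f : ℝ × X → ℝ} (hf : Dom (m + 1) f) : Dom m (fun z => -q z.2 * f z) :=
  hf.mul (w := fun ξ => -q ξ) (by fun_prop) (fun ξ => by
    rw [abs_neg, abs_of_nonneg (q_nonneg ξ)]; linarith)

lemma Dom.mono {m : ℕ} {f : ℝ × X → ℝ} (hf : Dom (m + 1) f) : Dom m f := by
  simpa using hf.mul (w := fun _ => 1) (by fun_prop) (fun ξ => by
    rw [abs_one]; linarith [q_nonneg ξ])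

lemma Dom.sum {m : ℕ} {f : Fin 3 → ℝ × X → ℝ} (hf : ∀ i, Dom m (f i)) :
    Dom m (fun z => ∑ i, f i z) := by
  simp only [Fin.sum_univ_three]
  exact ((hf 0).add (hf 1)).add (hf 2)

lemma Dom.slice {m : ℕ} {f : ℝ × X → ℝ} (hf : Dom m f) (t : ℝ) : Continuous fun ξ => f (t, ξ) :=
  hf.1.comp (Continuous.prodMk_right t)

lemma Dom.int {m : ℕ} (hm : 1 ≤ m) {f : ℝ × X → ℝ} (hf : Dom m f) (t : ℝ) :
    Integrable fun ξ => f (t, ξ) := by
  obtain ⟨c, -, h⟩ := hf.2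
  exact ((P_int hm).const_mul c).mono' (hf.slice t).aestronglyMeasurable
    (Eventually.of_forall fun ξ => h (t, ξ))

noncomputable def BB (i : Fin 3) (f g : ℝ × X → ℝ) (z : ℝ × X) : ℝ :=
  Bi i (fun ξ => f (z.1, ξ)) (fun ξ => g (z.1, ξ)) z.2

lemma kfg_le {m : ℕ} {a b : ℝ} (ha : 0 ≤ a) {x y : ℝ} {ζ η : X} {i : Fin 3}
    (hk : |k i η| ≤ S η) (hx : |x| ≤ a * P m ζ) (hy : |y| ≤ b * P m η) :
    ‖k i η * (x * y)‖ ≤ a * b * (S η * P m η) := by
  rw [Real.norm_eq_abs, abs_mul, abs_mul]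
  have h1 : |x| ≤ a := hx.trans (mul_le_of_le_one_right ha (P_le_one _ _))
  have := S_nonneg η
  calc |k i η| * (|x| * |y|) ≤ S η * (a * (b * P m η)) := by gcongr
    _ = _ := by ring

lemma Dom.BB {m : ℕ} (hm : 1 ≤ m) {f g : ℝ × X → ℝ} (hf : Dom m f) (hg : Dom m g) (i : Fin 3) :
    Dom m (BB i f g) := by
  obtain ⟨a, ha, f2⟩ := hf.2
  obtain ⟨b, hb, g2⟩ := hg.2
  have f1 := hf.1
  have g1 := hg.1
  refine ⟨?_, a * b * Cm m ^ 3, by have := Cm_pos m; positivity, fun z => ?_⟩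
  · refine continuous_of_dominated (bound := fun η => a * b * (S η * P m η)) (fun z => ?_)
      (fun z => ?_) ((SP_int hm).const_mul _) (Eventually.of_forall fun η => by fun_prop)
    · exact ((k_meas i).mul (Continuous.measurable (by fun_prop))).aestronglyMeasurable
    · filter_upwards [k_le] with η hk
      exact kfg_le ha (hk i) (f2 (z.1, z.2 - η)) (g2 (z.1, η))
  · have := (Bi_bound hm one_pos one_pos (hf.slice z.1) (hg.slice z.1) (fun ξ => f2 (z.1, ξ))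
      (fun ξ => g2 (z.1, ξ)) i z.2).2
    refine this.trans (le_of_eq ?_)
    unfold P; ring

lemma Dom.BB_int {m : ℕ} (hm : 1 ≤ m) {f g : ℝ × X → ℝ} (hf : Dom m f) (hg : Dom m g) (i : Fin 3)
    (t : ℝ) (ξ : X) : Integrable fun η => k i η * (f (t, ξ - η) * g (t, η)) := by
  obtain ⟨a, ha, f2⟩ := hf.2
  obtain ⟨b, hb, g2⟩ := hg.2
  exact (Bi_bound hm one_pos one_pos (hf.slice t) (hg.slice t) (fun ξ => f2 (t, ξ))
      (fun ξ => g2 (t, ξ)) i ξ).1

def TD (h h' : ℝ × X → ℝ) : Prop :=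
  ∀ t, 0 < t → ∀ ξ, HasDerivAt (fun s => h (s, ξ)) (h' (t, ξ)) t

lemma TD.add {f f' g g' : ℝ × X → ℝ} (hf : TD f f') (hg : TD g g') :
    TD (fun z => f z + g z) (fun z => f' z + g' z) := fun t ht ξ => (hf t ht ξ).add (hg t ht ξ)

lemma TD.mul {f f' : ℝ × X → ℝ} (hf : TD f f') (w : X → ℝ) :
    TD (fun z => w z.2 * f z) (fun z => w z.2 * f' z) := fun t ht ξ => (hf t ht ξ).const_mul (w ξ)

lemma TD.sum {f f' : Fin 3 → ℝ × X → ℝ} (hf : ∀ i, TD (f i) (f' i)) :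
    TD (fun z => ∑ i, f i z) (fun z => ∑ i, f' i z) := by
  simp only [Fin.sum_univ_three]
  exact ((hf 0).add (hf 1)).add (hf 2)

lemma TD.BB {m : ℕ} (hm : 1 ≤ m) {f f' : ℝ × X → ℝ} (hf : Dom m f) (hf' : Dom m f')
    (hd : TD f f') (i : Fin 3) :
    TD (BB i f f) (fun z => BB i f' f z + BB i f f' z) := by
  intro t ht ξ
  obtain ⟨a, ha, f2⟩ := hf.2
  obtain ⟨b, hb, g2⟩ := hf'.2
  have f1 := hf.1
  have g1 := hf'.1
  have key := hasDerivAt_integral_of_dominated_loc_of_deriv_le (μ := (volume : Measure X))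
    (F := fun s η => k i η * (f (s, ξ - η) * f (s, η)))
    (F' := fun s η => k i η * (f' (s, ξ - η) * f (s, η)) + k i η * (f (s, ξ - η) * f' (s, η)))
    (bound := fun η => b * a * (S η * P m η) + a * b * (S η * P m η))
    (Ioi_mem_nhds ht)
    (Eventually.of_forall fun s => (hf.BB_int hm hf i s ξ).aestronglyMeasurable)
    (hf.BB_int hm hf i t ξ)
    ((hf'.BB_int hm hf i t ξ).add (hf.BB_int hm hf' i t ξ)).aestronglyMeasurable
    (by
      filter_upwards [k_le] with η hk s _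
      exact (norm_add_le _ _).trans (add_le_add
        (kfg_le hb (hk i) (g2 (s, ξ - η)) (f2 (s, η)))
        (kfg_le ha (hk i) (f2 (s, ξ - η)) (g2 (s, η)))))
    (((SP_int hm).const_mul _).add ((SP_int hm).const_mul _))
    (Eventually.of_forall fun η s hs => by
      have := ((hd s hs (ξ - η)).fun_mul (hd s hs η)).const_mul (k i η)
      rw [mul_add] at this
      exact this)
  have h2 := key.2
  rw [integral_add (hf'.BB_int hm hf i t ξ) (hf.BB_int hm hf' i t ξ)] at h2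
  exact h2

end Pool.Agent.H.MP_e522c7_an
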