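import Pool.Agent.H.MP_e522c7_an.B

set_option autoImplicit false
open MeasureTheory Real Set Filter Topology

namespace Pool.Agent.H.MP_e522c7_an

noncomputable def τ (t : ℝ) : ℝ := max t 0

noncomputable def ρ (t : ℝ) : ℝ := √(1 + τ t)

lemma τ_nonneg (t : ℝ) : 0 ≤ τ t := le_max_right _ _

lemma τ_of {t : ℝ} (h : 0 ≤ t) : τ t = t := max_eq_left h

@[fun_prop] lemma τ_cont : Continuous τ := by unfold τ; fun_prop

@[fun_prop] lemma ρ_cont : Continuous ρ := by unfold ρ; fun_prop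

lemma ρ_ge (t : ℝ) : 1 ≤ ρ t := Real.one_le_sqrt.2 (by linarith [τ_nonneg t])

lemma ρ_pos (t : ℝ) : 0 < ρ t := lt_of_lt_of_le one_pos (ρ_ge t)

lemma ρ_sq (t : ℝ) : ρ t ^ 2 = 1 + τ t := Real.sq_sqrt (by linarith [τ_nonneg t])

lemma ρ_τ (t : ℝ) : ρ (τ t) = ρ t := by unfold ρ; rw [τ_of (τ_nonneg t)]

lemma cube_le {z : ℝ} (hz : 0 ≤ z) : (1 + z) ^ 3 ≤ 216 * exp (z / 2) := by
  have h1 : 1 + z ≤ 6 * exp (z / 6) := by nlinarith [Real.add_one_le_exp (z / 6)]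
  calc (1 + z) ^ 3 ≤ (6 * exp (z / 6)) ^ 3 := by gcongr
    _ = 216 * exp (z / 2) := by
        rw [mul_pow, ← Real.exp_nat_mul]; norm_num; ring_nf

lemma p_time {s t : ℝ} (hs : 0 ≤ s) (hst : s ≤ t) (y : ℝ) :
    p 3 (ρ s * y) ≤ 216 * exp ((t - s) * y ^ 2 / 2) * p 3 (ρ t * y) := by
  unfold p
  rw [mul_pow, mul_pow, ρ_sq, ρ_sq, τ_of hs, τ_of (hs.trans hst)]
  have hz : 0 ≤ (t - s) * y ^ 2 := mul_nonneg (by linarith) (sq_nonneg y)
  have h0 := sq_nonneg y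
  have ht : 0 ≤ t := hs.trans hst
  have h1 : 1 + (1 + t) * y ^ 2 ≤ (1 + (t - s) * y ^ 2) * (1 + (1 + s) * y ^ 2) := by
    nlinarith [mul_nonneg hz (mul_nonneg (by linarith : 0 ≤ 1 + s) h0)]
  have h2 : (1 + (1 + t) * y ^ 2) ^ 3 ≤
      216 * exp ((t - s) * y ^ 2 / 2) * (1 + (1 + s) * y ^ 2) ^ 3 := by
    calc _ ≤ ((1 + (t - s) * y ^ 2) * (1 + (1 + s) * y ^ 2)) ^ 3 := by gcongr
      _ = (1 + (t - s) * y ^ 2) ^ 3 * (1 + (1 + s) * y ^ 2) ^ 3 := mul_pow _ _ _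
      _ ≤ _ := mul_le_mul_of_nonneg_right (cube_le hz) (by positivity)
  rw [← div_eq_mul_inv, le_div_iff₀ (by positivity), inv_mul_le_iff₀ (by positivity)]
  linarith

lemma W_time {s t : ℝ} (hs : 0 ≤ s) (hst : s ≤ t) (L : ℝ) (ξ : X) :
    W 3 (ρ s) L ξ ≤ 216 ^ 2 * exp ((t - s) * q ξ / 2) * W 3 (ρ t) L ξ := by
  unfold W
  have a0 := p_time hs hst (ξ 0)
  have a1 := p_time hs hst (ξ 1)
  have b0 := p_pos 3 (ρ t * ξ 0)
  have b1 := p_pos 3 (ρ t * ξ 1)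
  have b2 := p_pos 3 (L * ξ 2)
  have b3 := p_pos 3 (ρ s * ξ 1)
  have he : exp ((t - s) * ξ 0 ^ 2 / 2) * exp ((t - s) * ξ 1 ^ 2 / 2) ≤
      exp ((t - s) * q ξ / 2) := by
    rw [← Real.exp_add, q_eq]
    apply Real.exp_le_exp.2
    nlinarith [mul_nonneg (sub_nonneg.2 hst) (sq_nonneg (ξ 2))]
  calc _ ≤ (216 * exp ((t - s) * ξ 0 ^ 2 / 2) * p 3 (ρ t * ξ 0)) *
        (216 * exp ((t - s) * ξ 1 ^ 2 / 2) * p 3 (ρ t * ξ 1)) * p 3 (L * ξ 2) := by gcongr
    _ = 216 ^ 2 * (exp ((t - s) * ξ 0 ^ 2 / 2) * exp ((t - s) * ξ 1 ^ 2 / 2)) *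
        (p 3 (ρ t * ξ 0) * p 3 (ρ t * ξ 1) * p 3 (L * ξ 2)) := by ring
    _ ≤ _ := by gcongr

lemma time_int {t : ℝ} (ht : 0 ≤ t) (a : ℝ) :
    ∫ s in (0 : ℝ)..t, exp (-((t - s) * a ^ 2 / 2)) * (|a| / ρ s) ≤ 10 := by
  have hρ := ρ_pos
  have ha := abs_nonneg a
  have hd : ∀ s ∈ uIcc (0 : ℝ) t, HasDerivAt
      (fun s => 2 * exp (-((t - s) * a ^ 2 / 2)) - 8 * (1 + |a| * √(1 + s))⁻¹)
      (a ^ 2 * exp (-((t - s) * a ^ 2 / 2)) + 4 * (|a| / ρ s) / (1 + |a| * ρ s) ^ 2) s := by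
    intro s hs
    rw [uIcc_of_le ht] at hs
    have hs0 : 0 ≤ s := hs.1
    have e1 : ρ s = √(1 + s) := by rw [ρ, τ_of hs0]
    have h1 : HasDerivAt (fun s => -((t - s) * a ^ 2 / 2)) (a ^ 2 / 2) s := by
      have := ((((hasDerivAt_id s).const_sub t).mul_const (a ^ 2)).div_const 2).fun_neg
      convert this using 1 <;> first | rfl | ring
    have h2 : HasDerivAt (fun s => √(1 + s)) (1 / (2 * √(1 + s))) s :=
      ((hasDerivAt_id s).const_add 1).sqrt (by simp only [id]; linarith)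
    have hp : 0 < √(1 + s) := Real.sqrt_pos.2 (by linarith)
    have h3 := ((h2.const_mul |a|).const_add 1).fun_inv (by positivity)
    have := (h1.exp.const_mul 2).fun_sub (h3.const_mul 8)
    refine this.congr_deriv ?_
    rw [e1]; field_simp; ring
  have hc : Continuous fun s => a ^ 2 * exp (-((t - s) * a ^ 2 / 2)) +
      4 * (|a| / ρ s) / (1 + |a| * ρ s) ^ 2 := by
    have h1 : ∀ s, ρ s ≠ 0 := fun s => (hρ s).ne'
    have h2 : ∀ s, (1 + |a| * ρ s) ^ 2 ≠ 0 := fun s => by have := hρ s; positivity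
    fun_prop (disch := assumption)
  have hc2 : Continuous fun s => exp (-((t - s) * a ^ 2 / 2)) * (|a| / ρ s) := by
    have h1 : ∀ s, ρ s ≠ 0 := fun s => (hρ s).ne'
    fun_prop (disch := assumption)
  have hI := intervalIntegral.integral_eq_sub_of_hasDerivAt hd (hc.intervalIntegrable _ _)
  refine (intervalIntegral.integral_mono_on ht (hc2.intervalIntegrable _ _)
    (hc.intervalIntegrable _ _) fun s hs => ?_).trans ?_
  · have hr := hρ s
    have he : exp (-((t - s) * a ^ 2 / 2)) ≤ 1 := Real.exp_le_one_iff.2 (by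
      have := mul_nonneg (sub_nonneg.2 hs.2) (sq_nonneg a); linarith)
    have he0 := Real.exp_pos (-((t - s) * a ^ 2 / 2))
    have hb : 0 ≤ |a| / ρ s := by positivity
    by_cases h : 1 ≤ |a| * ρ s
    · have : |a| / ρ s ≤ a ^ 2 := by
        rw [div_le_iff₀ hr, ← sq_abs a]; nlinarith
      have h5 : 0 ≤ 4 * (|a| / ρ s) / (1 + |a| * ρ s) ^ 2 := by positivity
      nlinarith
    · push Not at h
      have h6 : |a| / ρ s ≤ 4 * (|a| / ρ s) / (1 + |a| * ρ s) ^ 2 := by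
        rw [le_div_iff₀ (by positivity)]
        have : (1 + |a| * ρ s) ^ 2 ≤ 4 := by nlinarith [mul_nonneg ha hr.le]
        nlinarith
      have h7 : 0 ≤ a ^ 2 * exp (-((t - s) * a ^ 2 / 2)) := by positivity
      nlinarith
  · rw [hI]
    have h1 : 0 < (1 + |a| * √(1 + t))⁻¹ := by positivity
    have h2 : (1 + |a| * √(1 + 0))⁻¹ ≤ 1 :=
      inv_le_one_of_one_le₀ (by have : 0 ≤ |a| * √(1 + 0) := by positivity
                                linarith)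
    have h3 := Real.exp_pos (-((t - 0) * a ^ 2 / 2))
    simp only [sub_self, zero_mul, zero_div, neg_zero, Real.exp_zero]
    linarith

noncomputable def Wt (L : ℝ) (z : ℝ × X) : ℝ := W 3 (ρ z.1) L z.2

lemma Wt_pos (L : ℝ) (z : ℝ × X) : 0 < Wt L z := W_pos _ _ _ _

@[fun_prop] lemma Wt_cont (L : ℝ) : Continuous (Wt L) :=
  (W_cont 3).comp (f := fun z : ℝ × X => (ρ z.1, L, z.2)) (by fun_prop)

lemma dom_of {L : ℝ} (hL : 1 ≤ L) {u : ℝ × X → ℝ} (hu : Continuous u) {α : ℝ} (hα : 0 ≤ α)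
    (h : ∀ z, |u z| ≤ α * Wt L z) : Dom 3 u :=
  ⟨hu, α, hα, fun z => (h z).trans (mul_le_mul_of_nonneg_left (W_le_P 3 (ρ_ge _) hL _) hα)⟩

noncomputable def Bq (u v : ℝ × X → ℝ) (z : ℝ × X) : ℝ := ∑ i, z.2 i * BB i u v z

lemma Dom.Bq {m : ℕ} {u v : ℝ × X → ℝ} (hu : Dom (m + 1) u) (hv : Dom (m + 1) v) :
    Dom m (Bq u v) :=
  Dom.sum fun i => (hu.BB (by omega) hv i).coord i

noncomputable def J (u v : ℝ × X → ℝ) (z : ℝ × X) : ℝ :=
  ∫ s in (0 : ℝ)..τ z.1, exp (-((τ z.1 - s) * q z.2)) * Bq u v (s, z.2)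

lemma J_cont {u v : ℝ × X → ℝ} (h : Continuous (Bq u v)) : Continuous (J u v) := by
  unfold J
  apply intervalIntegral.continuous_parametric_intervalIntegral_of_continuous
    (f := fun (z : ℝ × X) s => exp (-((τ z.1 - s) * q z.2)) * Bq u v (s, z.2)) _ (by fun_prop)
  unfold Function.uncurry
  fun_prop

noncomputable def D : ℝ := 30 * 216 ^ 2 * Cm 3 ^ 3

lemma D_pos : 0 < D := by have := Cm_pos 3; unfold D; positivity

lemma J_bound {L : ℝ} (hL : 1 ≤ L) {u v : ℝ × X → ℝ} (hu : Continuous u) (hv : Continuous v)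
    {α β : ℝ} (hα : 0 ≤ α) (hβ : 0 ≤ β) (h1 : ∀ z, |u z| ≤ α * Wt L z)
    (h2 : ∀ z, |v z| ≤ β * Wt L z) (z : ℝ × X) : |J u v z| ≤ α * β * (D / L) * Wt L z := by
  obtain ⟨t0, ξ⟩ := z
  have hL0 : 0 < L := by linarith
  have ht := τ_nonneg t0
  have hW : Wt L (t0, ξ) = W 3 (ρ (τ t0)) L ξ := by rw [ρ_τ]; rfl
  rw [hW]
  unfold J
  simp only
  generalize τ t0 = t at *
  have hC := Cm_pos 3
  have hWp := W_pos 3 (ρ t) L ξ
  set K := α * β * (216 ^ 2 * Cm 3 ^ 3 / L) * W 3 (ρ t) L ξ with hK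
  have hK0 : 0 ≤ K := by positivity
  have hc : ∀ i, Continuous fun s => exp (-((t - s) * ξ i ^ 2 / 2)) * (|ξ i| / ρ s) := by
    intro i
    have h1 : ∀ s, ρ s ≠ 0 := fun s => (ρ_pos s).ne'
    fun_prop (disch := assumption)
  have hb : ∀ s ∈ Ioc (0 : ℝ) t, ‖exp (-((t - s) * q ξ)) * Bq u v (s, ξ)‖ ≤
      ∑ i, K * (exp (-((t - s) * ξ i ^ 2 / 2)) * (|ξ i| / ρ s)) := by
    intro s hs
    rw [Real.norm_eq_abs, Bq, Finset.mul_sum]
    refine (Finset.abs_sum_le_sum_abs _ _).trans (Finset.sum_le_sum fun i _ => ?_)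
    have b1 := (Bi_bound (m := 3) (by norm_num) (ρ_pos s) hL0
      (hu.comp (Continuous.prodMk_right s)) (hv.comp (Continuous.prodMk_right s))
      (fun ξ => h1 (s, ξ)) (fun ξ => h2 (s, ξ)) i ξ).2
    have b2 := W_time hs.1.le hs.2 L ξ
    have hr := ρ_pos s
    have b3 : |BB i u v (s, ξ)| ≤ α * β * (Cm 3 ^ 3 / (ρ s * L) *
        (216 ^ 2 * exp ((t - s) * q ξ / 2) * W 3 (ρ t) L ξ)) := b1.trans (by gcongr)
    have b4 : exp (-((t - s) * q ξ)) * exp ((t - s) * q ξ / 2) ≤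
        exp (-((t - s) * ξ i ^ 2 / 2)) := by
      rw [← Real.exp_add]
      apply Real.exp_le_exp.2
      nlinarith [mul_le_mul_of_nonneg_left (sq_le_q ξ i) (sub_nonneg.2 hs.2)]
    rw [abs_mul, abs_mul, abs_of_pos (Real.exp_pos _)]
    calc _ ≤ exp (-((t - s) * q ξ)) * (|ξ i| * (α * β * (Cm 3 ^ 3 / (ρ s * L) *
        (216 ^ 2 * exp ((t - s) * q ξ / 2) * W 3 (ρ t) L ξ)))) := by gcongr
      _ = K * ((exp (-((t - s) * q ξ)) * exp ((t - s) * q ξ / 2)) * (|ξ i| / ρ s)) := by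
          rw [hK]; field_simp
      _ ≤ _ := by gcongr
  have hi : ∀ i ∈ (Finset.univ : Finset (Fin 3)), IntervalIntegrable
      (fun s => K * (exp (-((t - s) * ξ i ^ 2 / 2)) * (|ξ i| / ρ s))) volume 0 t :=
    fun i _ => (continuous_const.mul (hc i)).intervalIntegrable _ _
  have := intervalIntegral.norm_integral_le_of_norm_le (μ := volume) ht
    (Eventually.of_forall hb) (Continuous.intervalIntegrable
      (continuous_finsetSum _ fun i _ => continuous_const.mul (hc i)) _ _)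
  refine this.trans ?_
  rw [intervalIntegral.integral_finsetSum hi]
  calc _ ≤ ∑ _i : Fin 3, K * 10 := Finset.sum_le_sum fun i _ => by
        rw [intervalIntegral.integral_const_mul]
        exact mul_le_mul_of_nonneg_left (time_int ht _) hK0
    _ = _ := by simp [hK, D]; ring

lemma BB_sub {u v : ℝ × X → ℝ} (hu : Dom 3 u) (hv : Dom 3 v) (hw : Dom 3 fun z => u z - v z)
    (i : Fin 3) (z : ℝ × X) :
    BB i u u z - BB i v v z = BB i (fun z => u z - v z) u z + BB i v (fun z => u z - v z) z := by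
  have h3 : 1 ≤ 3 := by norm_num
  unfold BB Bi
  rw [← integral_sub (hu.BB_int h3 hu i z.1 z.2) (hv.BB_int h3 hv i z.1 z.2),
    ← integral_add (hw.BB_int h3 hu i z.1 z.2) (hv.BB_int h3 hw i z.1 z.2)]
  congr 1; funext η; ring

lemma J_sub {u v : ℝ × X → ℝ} (hu : Dom 3 u) (hv : Dom 3 v) (hw : Dom 3 fun z => u z - v z)
    (z : ℝ × X) :
    J u u z - J v v z = J (fun z => u z - v z) u z + J v (fun z => u z - v z) z := by
  have hi : ∀ {f g : ℝ × X → ℝ}, Dom 3 f → Dom 3 g → IntervalIntegrable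
      (fun s => exp (-((τ z.1 - s) * q z.2)) * Bq f g (s, z.2)) volume 0 (τ z.1) := by
    intro f g hf hg
    have := (hf.Bq hg).1
    exact Continuous.intervalIntegrable (by fun_prop) _ _
  unfold J
  rw [← intervalIntegral.integral_sub (hi hu hu) (hi hv hv),
    ← intervalIntegral.integral_add (hi hw hu) (hi hv hw)]
  congr 1; funext s
  rw [← mul_sub, ← mul_add, Bq, Bq, Bq, Bq, ← Finset.sum_sub_distrib, ← Finset.sum_add_distrib]
  congr 1
  refine Finset.sum_congr rfl fun i _ => ?_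
  rw [← mul_sub, BB_sub hu hv hw, mul_add]

lemma q_neg (ξ : X) : q (-ξ) = q ξ := by simp [q]

lemma J_refl (u : ℝ × X → ℝ) (z : ℝ × X) :
    J (fun z => u (z.1, -z.2)) (fun z => u (z.1, -z.2)) z = J u u (z.1, -z.2) := by
  unfold J
  simp only [q_neg]
  congr 1; funext s
  congr 1
  unfold Bq
  refine Finset.sum_congr rfl fun i _ => ?_
  unfold BB Bi
  simp only [Pi.neg_apply]
  rw [← integral_neg_eq_self, neg_mul, ← mul_neg, ← integral_neg]
  congr 2; funext η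
  simp only [k, q_neg, Pi.neg_apply, neg_neg]
  rw [show -(z.2 - -η) = -z.2 - η by abel]; ring

end Pool.Agent.H.MP_e522c7_an
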