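import Pool.Agent.H.MP_e522c7_an.C

set_option autoImplicit false
open MeasureTheory Real Set Filter Topology BoundedContinuousFunction

namespace Pool.Agent.H.MP_e522c7_an

noncomputable def cl (y : ℝ) : ℝ := max (-1) (min 1 y)

@[fun_prop] lemma cl_cont : Continuous cl := by unfold cl; fun_prop

lemma cl_abs (y : ℝ) : |cl y| ≤ 1 :=
  abs_le.2 ⟨le_max_left _ _, max_le (by norm_num) (min_le_left _ _)⟩

lemma cl_of {y : ℝ} (h : |y| ≤ 1) : cl y = y := by
  rw [abs_le] at h
  rw [cl, min_eq_right h.2, max_eq_right h.1]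

lemma cl_lip (x y : ℝ) : |cl x - cl y| ≤ |x - y| := by
  unfold cl
  refine (abs_max_sub_max_le_max _ _ _ _).trans (max_le (by simp) ?_)
  refine (abs_min_sub_min_le_max _ _ _ _).trans (max_le (by simp) le_rfl)

noncomputable def uu (L A : ℝ) (f : ℝ × X →ᵇ ℝ) (z : ℝ × X) : ℝ := 2 * A * Wt L z * cl (f z)

lemma uu_cont (L A : ℝ) (f : ℝ × X →ᵇ ℝ) : Continuous (uu L A f) := by
  have := f.continuous
  unfold uu; fun_prop

lemma uu_le {L A : ℝ} (hA : 0 < A) (f : ℝ × X →ᵇ ℝ) (z : ℝ × X) :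
    |uu L A f z| ≤ 2 * A * Wt L z := by
  have := Wt_pos L z
  rw [uu, abs_mul, abs_of_pos (by positivity)]
  exact mul_le_of_le_one_right (by positivity) (cl_abs _)

lemma uu_sub {L A : ℝ} (hA : 0 < A) (f g : ℝ × X →ᵇ ℝ) (z : ℝ × X) :
    |uu L A f z - uu L A g z| ≤ 2 * A * dist f g * Wt L z := by
  have := Wt_pos L z
  rw [uu, uu, ← mul_sub, abs_mul, abs_of_pos (by positivity)]
  have h : |cl (f z) - cl (g z)| ≤ dist f g :=
    (cl_lip _ _).trans (by rw [← Real.dist_eq]; exact dist_coe_le_dist z)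
  calc _ ≤ 2 * A * Wt L z * dist f g := by gcongr
    _ = _ := by ring

theorem exists_fix {L A : ℝ} (hL : 1 ≤ L) (hA : 0 < A) (hAL : 8 * A * D ≤ L) {u0 : X → ℝ}
    (h0 : Continuous u0) (he : ∀ ξ, u0 (-ξ) = u0 ξ)
    (hb : ∀ z : ℝ × X, |exp (-(τ z.1 * q z.2)) * u0 z.2| ≤ A * Wt L z) :
    ∃ u : ℝ × X → ℝ, Dom 3 u ∧ (∀ z : ℝ × X, u (z.1, -z.2) = u z) ∧
      ∀ z : ℝ × X, u z = exp (-(τ z.1 * q z.2)) * u0 z.2 + J u u z := by
  have hL0 : 0 < L := by linarith
  have hD := D_pos
  have hDL : 8 * A * (D / L) ≤ 1 := by rw [← mul_div_assoc, div_le_one hL0]; exact hAL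
  have hdom : ∀ f, Dom 3 (uu L A f) := fun f => dom_of hL (uu_cont L A f) (by positivity) (uu_le hA f)
  let φ : (ℝ × X →ᵇ ℝ) → ℝ × X → ℝ := fun f z =>
    (exp (-(τ z.1 * q z.2)) * u0 z.2 + J (uu L A f) (uu L A f) z) / (2 * A * Wt L z)
  have φc : ∀ f, Continuous (φ f) := by
    intro f
    have h1 := J_cont ((hdom f).Bq (hdom f)).1
    have h2 : ∀ z, 2 * A * Wt L z ≠ 0 := fun z => by have := Wt_pos L z; positivity
    simp only [φ]
    fun_prop (disch := assumption)
  have φb : ∀ f z, ‖φ f z‖ ≤ 1 := by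
    intro f z
    have hW := Wt_pos L z
    have h1 := J_bound hL (uu_cont L A f) (uu_cont L A f) (by positivity) (by positivity)
      (uu_le hA f) (uu_le hA f) z
    rw [Real.norm_eq_abs, abs_div, abs_of_pos (by positivity : 0 < 2 * A * Wt L z),
      div_le_one (by positivity)]
    have h2 := abs_add_le (exp (-(τ z.1 * q z.2)) * u0 z.2) (J (uu L A f) (uu L A f) z)
    have h3 := mul_le_mul_of_nonneg_right hDL (mul_pos hA hW).le
    nlinarith [hb z, mul_pos hA hW]
  let Φ : (ℝ × X →ᵇ ℝ) → (ℝ × X →ᵇ ℝ) := fun f => ofNormedAddCommGroup (φ f) (φc f) 1 (φb f)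
  have hΦ : ContractingWith (1 / 2) Φ := by
    refine ⟨by norm_num, LipschitzWith.of_dist_le_mul fun f g => ?_⟩
    refine (dist_le (by positivity)).2 fun z => ?_
    have hW := Wt_pos L z
    have hc : Continuous fun z => uu L A f z - uu L A g z := (uu_cont L A f).sub (uu_cont L A g)
    have hw : Dom 3 fun z => uu L A f z - uu L A g z :=
      dom_of hL hc (by positivity) (uu_sub hA f g)
    have h1 := J_bound hL hc (uu_cont L A f) (by positivity) (by positivity)
      (uu_sub hA f g) (uu_le hA f) z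
    have h2 := J_bound hL (uu_cont L A g) hc (by positivity) (by positivity)
      (uu_le hA g) (uu_sub hA f g) z
    have h3 := J_sub (hdom f) (hdom g) hw z
    change dist (φ f z) (φ g z) ≤ _
    simp only [φ]
    rw [Real.dist_eq, ← sub_div, add_sub_add_left_eq_sub, h3, abs_div,
      abs_of_pos (by positivity : 0 < 2 * A * Wt L z), div_le_iff₀ (by positivity)]
    have h4 := mul_le_mul_of_nonneg_right hDL
      (mul_nonneg (mul_pos hA hW).le (dist_nonneg (x := f) (y := g)))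
    refine (abs_add_le _ _).trans ?_
    push_cast
    nlinarith
  let f := hΦ.fixedPoint Φ
  have hf : Φ f = f := hΦ.fixedPoint_isFixedPt
  have hfz : ∀ z, f z = φ f z := fun z => by rw [← hf]; rw [hf]; exact (congrArg (· z) hf).symm
  have hu : ∀ z, uu L A f z = exp (-(τ z.1 * q z.2)) * u0 z.2 + J (uu L A f) (uu L A f) z := by
    intro z
    have hW := Wt_pos L z
    have : |f z| ≤ 1 := by rw [hfz]; exact φb f z
    rw [uu, cl_of this, hfz]
    simp only [φ]
    field_simp
  have hWe : ∀ z : ℝ × X, Wt L (z.1, -z.2) = Wt L z := by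
    intro z; simp [Wt, W, p_neg]
  let g : ℝ × X →ᵇ ℝ := f.compContinuous ⟨fun z => (z.1, -z.2), by fun_prop⟩
  have hug : uu L A g = fun z => uu L A f (z.1, -z.2) := by
    funext z; rw [uu, uu, hWe]; rfl
  have hg : Φ g = g := by
    ext z
    change φ g z = f (z.1, -z.2)
    rw [hfz]
    simp only [φ]
    rw [hug, J_refl, hWe, q_neg, he]
  have hgf : g = f := hΦ.fixedPoint_unique hg
  refine ⟨uu L A f, hdom f, fun z => ?_, hu⟩
  rw [← congrFun hug z, hgf]

theorem exists_deriv {u : ℝ × X → ℝ} {u0 : X → ℝ} (hu : Dom 3 u)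
    (h : ∀ z : ℝ × X, u z = exp (-(τ z.1 * q z.2)) * u0 z.2 + J u u z) :
    TD u (fun z => -q z.2 * u z + Bq u u z) ∧
    ∃ d2, Dom 1 d2 ∧ TD (fun z => -q z.2 * u z + Bq u u z) d2 := by
  have hB : Dom 2 (Bq u u) := hu.Bq hu
  have h1 : TD u (fun z => -q z.2 * u z + Bq u u z) := by
    intro t ht ξ
    have hc : Continuous fun s => exp (s * q ξ) * Bq u u (s, ξ) := by
      have := hB.1; fun_prop
    have e : ∀ s, 0 < s → u (s, ξ) =
        exp (-(s * q ξ)) * (u0 ξ + ∫ r in (0 : ℝ)..s, exp (r * q ξ) * Bq u u (r, ξ)) := by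
      intro s hs
      rw [h, J]
      simp only [τ_of hs.le]
      rw [mul_add, ← intervalIntegral.integral_const_mul]
      congr 2; funext r
      rw [← mul_assoc, ← Real.exp_add]; congr 2; ring
    have d1 := (intervalIntegral.integral_hasDerivAt_right (hc.intervalIntegrable 0 t)
      hc.aestronglyMeasurable.stronglyMeasurableAtFilter hc.continuousAt).const_add (u0 ξ)
    have d2 := (((hasDerivAt_id t).mul_const (q ξ)).fun_neg.exp).fun_mul d1
    refine (d2.congr_of_eventuallyEq ?_).congr_deriv ?_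
    · filter_upwards [Ioi_mem_nhds ht] with s hs using e s hs
    · simp only [id]
      rw [e t ht, ← mul_assoc, ← Real.exp_add]
      simp only [neg_add_cancel, Real.exp_zero]; ring
  have hd1 : Dom 2 (fun z => -q z.2 * u z + Bq u u z) := hu.negq.add hB
  refine ⟨h1, _, ?_, (h1.mul fun ξ => -q ξ).add
    (TD.sum fun i => (TD.BB (by norm_num) hu.mono hd1 h1 i).mul fun ξ => ξ i)⟩
  exact hd1.negq.add (Dom.sum fun i =>
    ((hd1.BB (by norm_num) hu.mono i).add (hu.mono.BB (by norm_num) hd1 i)).coord i)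

end Pool.Agent.H.MP_e522c7_an
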