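import Pool.Agent.H.MP_e522c7_an.D

set_option autoImplicit false
open MeasureTheory Real Set Filter Topology

namespace Pool.Agent.H.MP_e522c7_an

abbrev E3 := EuclideanSpace ℝ (Fin 3)

noncomputable def dot (ξ : X) (x : E3) : ℝ := ∑ i, ξ i * x i

@[fun_prop] lemma dot_cont : Continuous fun z : X × E3 => dot z.1 z.2 := by unfold dot; fun_prop

noncomputable def F (θ : ℝ) (h : ℝ × X → ℝ) (z : ℝ × E3) : ℝ :=
  ∫ ξ, cos (dot ξ z.2 + θ) * h (z.1, ξ)

lemma cos_mul_le (a b : ℝ) : |cos a * b| ≤ |b| := by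
  rw [abs_mul]; exact mul_le_of_le_one_left (abs_nonneg _) (abs_cos_le_one _)

lemma Dom.Fint {h : ℝ × X → ℝ} (hh : Dom 1 h) (θ : ℝ) (z : ℝ × E3) :
    Integrable fun ξ => cos (dot ξ z.2 + θ) * h (z.1, ξ) := by
  have := hh.1
  refine (hh.int le_rfl z.1).norm.mono' (Continuous.aestronglyMeasurable (by fun_prop))
    (Eventually.of_forall fun ξ => cos_mul_le _ _)

lemma Dom.Fcont {h : ℝ × X → ℝ} (hh : Dom 1 h) (θ : ℝ) : Continuous (F θ h) := by
  obtain ⟨c, -, hc⟩ := hh.2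
  have := hh.1
  exact continuous_of_dominated (bound := fun ξ => c * P 1 ξ)
    (fun z => (hh.Fint θ z).aestronglyMeasurable)
    (fun z => Eventually.of_forall fun ξ => (cos_mul_le _ _).trans (hc (z.1, ξ)))
    ((P_int le_rfl).const_mul _) (Eventually.of_forall fun ξ => by fun_prop)

lemma Dom.Fbdd {h : ℝ × X → ℝ} (hh : Dom 1 h) : ∃ C, ∀ θ z, |F θ h z| ≤ C := by
  obtain ⟨c, -, hc⟩ := hh.2
  refine ⟨∫ ξ, c * P 1 ξ, fun θ z => ?_⟩
  rw [← Real.norm_eq_abs, F]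
  exact norm_integral_le_of_norm_le ((P_int le_rfl).const_mul _)
    (Eventually.of_forall fun ξ => (cos_mul_le _ _).trans (hc (z.1, ξ)))

noncomputable def pr (i : Fin 3) : (ℝ × E3) →L[ℝ] ℝ :=
  (EuclideanSpace.proj i).comp (ContinuousLinearMap.snd ℝ ℝ E3)

noncomputable def ft : (ℝ × E3) →L[ℝ] ℝ := ContinuousLinearMap.fst ℝ ℝ E3

@[simp] lemma pr_apply (i : Fin 3) (z : ℝ × E3) : pr i z = z.2 i := rfl

@[simp] lemma ft_apply (z : ℝ × E3) : ft z = z.1 := rfl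

def U : Set (ℝ × E3) := Ioi (0 : ℝ) ×ˢ univ

lemma U_open : IsOpen U := isOpen_Ioi.prod isOpen_univ

lemma int_smul_sum {G : Type} [NormedAddCommGroup G] [NormedSpace ℝ G] [CompleteSpace G]
    {a : X → ℝ} {b : Fin 3 → X → ℝ} (ha : Integrable a) (hb : ∀ i, Integrable (b i))
    (v : G) (w : Fin 3 → G) : Integrable (fun ξ => a ξ • v + ∑ i, b i ξ • w i) ∧
      ∫ ξ, (a ξ • v + ∑ i, b i ξ • w i) = (∫ ξ, a ξ) • v + ∑ i, (∫ ξ, b i ξ) • w i := by
  have i1 := ha.smul_const v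
  have i2 : ∀ i ∈ (Finset.univ : Finset (Fin 3)), Integrable fun ξ => b i ξ • w i :=
    fun i _ => (hb i).smul_const _
  refine ⟨i1.add (integrable_finsetSum _ i2), ?_⟩
  rw [integral_add i1 (integrable_finsetSum _ i2), integral_finsetSum _ i2]
  simp only [integral_smul_const]

lemma F_deriv {h h' : ℝ × X → ℝ} (hh : Dom 2 h) (hh' : Dom 1 h') (hd : TD h h') (θ : ℝ)
    {z : ℝ × E3} (hz : z ∈ U) :
    HasFDerivAt (F θ h)
      (F θ h' z • ft + ∑ i, F (θ + π / 2) (fun w => w.2 i * h w) z • pr i) z := by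
  obtain ⟨c, hc0, hc⟩ := hh'.2
  choose e he0 he using fun i => (hh.coord i).2
  obtain ⟨i3, i4⟩ := int_smul_sum (hh'.Fint θ z)
    (fun i => (hh.coord i).Fint (θ + π / 2) z) ft pr
  have key := hasFDerivAt_integral_of_dominated_of_fderiv_le (μ := (volume : Measure X))
    (F := fun (z : ℝ × E3) ξ => cos (dot ξ z.2 + θ) * h (z.1, ξ))
    (F' := fun z ξ => (cos (dot ξ z.2 + θ) * h' (z.1, ξ)) • ft +
      ∑ i, (cos (dot ξ z.2 + (θ + π / 2)) * (ξ i * h (z.1, ξ))) • pr i)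
    (bound := fun ξ => c * P 1 ξ * ‖ft‖ + ∑ i, e i * P 1 ξ * ‖pr i‖)
    (U_open.mem_nhds hz)
    (Eventually.of_forall fun z => (hh.mono.Fint θ z).aestronglyMeasurable)
    (hh.mono.Fint θ z)
    i3.aestronglyMeasurable
    (Eventually.of_forall fun ξ z _ => by
      refine (norm_add_le _ _).trans (add_le_add ?_ ((norm_sum_le _ _).trans
        (Finset.sum_le_sum fun i _ => ?_)))
      · rw [norm_smul]
        exact mul_le_mul_of_nonneg_right ((cos_mul_le _ _).trans (hc (z.1, ξ))) (norm_nonneg _)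
      · rw [norm_smul]
        exact mul_le_mul_of_nonneg_right ((cos_mul_le _ _).trans (he i (z.1, ξ))) (norm_nonneg _))
    ((((P_int le_rfl).const_mul _).mul_const _).add
      (integrable_finsetSum _ fun i _ => ((P_int le_rfl).const_mul _).mul_const _))
    (Eventually.of_forall fun ξ z hz => by
      have d1 : HasFDerivAt (fun z : ℝ × E3 => dot ξ z.2 + θ) (∑ i, ξ i • pr i) z := by
        refine HasFDerivAt.add_const θ ?_
        exact HasFDerivAt.fun_sum fun i _ => (pr i).hasFDerivAt.const_mul (ξ i)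
      have d2 : HasFDerivAt (fun z : ℝ × E3 => h (z.1, ξ)) (h' (z.1, ξ) • ft) z :=
        (hd z.1 hz.1 ξ).comp_hasFDerivAt z (f := fun z : ℝ × E3 => z.1) ft.hasFDerivAt
      refine (d1.cos.fun_mul d2).congr_fderiv ?_
      ext v
      · simp
      · simp [← add_assoc, Real.cos_add_pi_div_two, Fin.sum_univ_three]; ring)
  rw [i4] at key
  exact key

lemma F_C1 {h h' : ℝ × X → ℝ} (hh : Dom 2 h) (hh' : Dom 1 h') (hd : TD h h') (θ : ℝ) :
    ContDiffOn ℝ 1 (F θ h) U := by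
  rw [show (1 : WithTop ℕ∞) = 0 + 1 by norm_num, contDiffOn_succ_iff_fderiv_of_isOpen U_open]
  refine ⟨fun z hz => (F_deriv hh hh' hd θ hz).differentiableAt.differentiableWithinAt,
    by simp, ?_⟩
  rw [contDiffOn_zero]
  refine ContinuousOn.congr (Continuous.continuousOn ?_) fun z hz => (F_deriv hh hh' hd θ hz).fderiv
  exact ((hh'.Fcont θ).smul continuous_const).add
    (continuous_finsetSum _ fun i _ => ((hh.coord i).Fcont _).smul continuous_const)

lemma F_C2 {h h' h'' : ℝ × X → ℝ} (hh : Dom 3 h) (hh' : Dom 2 h') (hh'' : Dom 1 h'')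
    (hd : TD h h') (hd' : TD h' h'') (θ : ℝ) : ContDiffOn ℝ 2 (F θ h) U := by
  rw [show (2 : WithTop ℕ∞) = 1 + 1 by norm_num, contDiffOn_succ_iff_fderiv_of_isOpen U_open]
  refine ⟨fun z hz => (F_deriv hh.mono hh'.mono hd θ hz).differentiableAt.differentiableWithinAt,
    by simp, ?_⟩
  refine ContDiffOn.congr ?_ fun z hz => (F_deriv hh.mono hh'.mono hd θ hz).fderiv
  exact ((F_C1 hh' hh'' hd' θ).smul contDiffOn_const).add
    (ContDiffOn.sum fun i _ => (F_C1 (hh.coord i) (hh'.coord i) (hd.mul fun ξ => ξ i) _).smul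
      contDiffOn_const)

lemma F_dt {h h' : ℝ × X → ℝ} (hh : Dom 2 h) (hh' : Dom 1 h') (hd : TD h h') (θ : ℝ)
    {t : ℝ} (ht : 0 < t) (x : E3) : HasDerivAt (fun s => F θ h (s, x)) (F θ h' (t, x)) t := by
  have h1 := F_deriv hh hh' hd θ (z := (t, x)) ⟨ht, trivial⟩
  have h2 : HasDerivAt (fun s : ℝ => (s, x)) (1, 0) t :=
    (hasDerivAt_id t).prodMk (hasDerivAt_const t x)
  refine (h1.comp_hasDerivAt t h2).congr_deriv ?_
  simp

lemma F_dx {h h' : ℝ × X → ℝ} (hh : Dom 2 h) (hh' : Dom 1 h') (hd : TD h h') (θ : ℝ)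
    {t : ℝ} (ht : 0 < t) (x : E3) : HasFDerivAt (fun y => F θ h (t, y))
      (∑ i, F (θ + π / 2) (fun w => w.2 i * h w) (t, x) •
        (EuclideanSpace.proj i : E3 →L[ℝ] ℝ)) x := by
  have h1 := F_deriv hh hh' hd θ (z := (t, x)) ⟨ht, trivial⟩
  refine (h1.comp x (hasFDerivAt_prodMk_right t x)).congr_fderiv ?_
  ext v
  simp

lemma F_dxx {h h' : ℝ × X → ℝ} (hh : Dom 3 h) (hh' : Dom 2 h') (hd : TD h h') (θ : ℝ)
    {t : ℝ} (ht : 0 < t) (x : E3) (i : Fin 3) :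
    iteratedFDeriv ℝ 2 (fun y => F θ h (t, y)) x
      ![EuclideanSpace.single i (1 : ℝ), EuclideanSpace.single i (1 : ℝ)] =
      F (θ + π / 2 + π / 2) (fun w => w.2 i * (w.2 i * h w)) (t, x) := by
  rw [iteratedFDeriv_two_apply]
  have e : fderiv ℝ (fun y => F θ h (t, y)) = fun x => ∑ j,
      F (θ + π / 2) (fun w => w.2 j * h w) (t, x) • (EuclideanSpace.proj j : E3 →L[ℝ] ℝ) :=
    funext fun x => (F_dx hh.mono hh'.mono hd θ ht x).fderiv
  rw [e]
  have d := HasFDerivAt.fun_sum (u := Finset.univ) fun (j : Fin 3) _ =>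
    (F_dx (hh.coord j) (hh'.coord j) (hd.mul fun ξ => ξ j) (θ + π / 2) ht x).smul_const
      (EuclideanSpace.proj j : E3 →L[ℝ] ℝ)
  rw [d.fderiv]
  simp

end Pool.Agent.H.MP_e522c7_an
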