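import Pool.Agent.H.MP_e522c7_an.E

set_option autoImplicit false
open MeasureTheory Real Set Filter Topology

namespace Pool.Agent.H.MP_e522c7_an

lemma dot_add (a b : X) (x : E3) : dot (a + b) x = dot a x + dot b x := by
  simp [dot, add_mul, Finset.sum_add_distrib]

lemma dot_neg (a : X) (x : E3) : dot (-a) x = -dot a x := by simp [dot]

lemma int_trig {f : X → ℝ} (hf : Integrable f) {c : ℝ → ℝ} (hc : Continuous c)
    (hb : ∀ y, |c y| ≤ 1) (x : E3) : Integrable fun ξ => c (dot ξ x) * f ξ :=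
  hf.bdd_mul (c := 1) (Continuous.aestronglyMeasurable (by fun_prop))
    (Eventually.of_forall fun _ => hb _)

lemma fub {f g : X → ℝ} (hf : Integrable f) (hg : Integrable g) (x : E3) :
    Integrable (fun ξ => cos (dot ξ x) * ∫ η, f (ξ - η) * g η) ∧
    ∫ ξ, cos (dot ξ x) * ∫ η, f (ξ - η) * g η =
      (∫ ξ, cos (dot ξ x) * f ξ) * (∫ ξ, cos (dot ξ x) * g ξ) -
        (∫ ξ, sin (dot ξ x) * f ξ) * (∫ ξ, sin (dot ξ x) * g ξ) := by
  have h1 : Integrable (fun z : X × X => f (z.1 - z.2) * g z.2) (volume.prod volume) := by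
    have := hg.convolution_integrand (ContinuousLinearMap.mul ℝ ℝ) hf
    simpa [mul_comm] using this
  have h2 : Integrable (fun z : X × X => cos (dot z.1 x) * (f (z.1 - z.2) * g z.2))
      (volume.prod volume) :=
    h1.bdd_mul (c := 1) (Continuous.aestronglyMeasurable (by fun_prop))
      (Eventually.of_forall fun _ => abs_cos_le_one _)
  have cf := int_trig hf continuous_cos abs_cos_le_one x
  have sf := int_trig hf continuous_sin abs_sin_le_one x
  have cg := int_trig hg continuous_cos abs_cos_le_one x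
  have sg := int_trig hg continuous_sin abs_sin_le_one x
  refine ⟨int_trig h1.integral_prod_left continuous_cos abs_cos_le_one x, ?_⟩
  simp_rw [← integral_const_mul]
  rw [integral_integral_swap (f := fun ξ η => cos (dot ξ x) * (f (ξ - η) * g η)) h2,
    ← integral_sub (cg.const_mul _) (sg.const_mul _)]
  congr 1; funext η
  rw [← integral_add_right_eq_self _ η, ← integral_mul_const, ← integral_mul_const,
    ← integral_sub (cf.mul_const _) (sf.mul_const _)]
  congr 1; funext ξ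
  rw [dot_add, cos_add, add_sub_cancel_right]; ring

lemma odd_int {f : X → ℝ} (h : ∀ ξ, f (-ξ) = -f ξ) : ∫ ξ, f ξ = 0 := by
  have h1 := integral_neg_eq_self f (volume : Measure X)
  simp_rw [h, integral_neg] at h1
  linarith

lemma Dom.kint {u : ℝ × X → ℝ} (hu : Dom 1 u) (j : Fin 3) (t : ℝ) :
    Integrable fun η => k j η * u (t, η) := by
  obtain ⟨c, hc0, hc⟩ := hu.2
  refine ((SP_int le_rfl).const_mul c).mono'
    ((k_meas j).mul (hu.slice t).measurable).aestronglyMeasurable ?_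
  filter_upwards [k_le] with η hk
  rw [Real.norm_eq_abs, abs_mul]
  have := S_nonneg η
  calc _ ≤ S η * (c * P 1 η) := by
        gcongr
        exacts [hk j, hc (t, η)]
    _ = _ := by ring

noncomputable def V (j : Fin 3) (u : ℝ × X → ℝ) (z : ℝ × E3) : ℝ :=
  -∫ η, sin (dot η z.2) * (k j η * u (z.1, η))

lemma V_bdd {u : ℝ × X → ℝ} (hu : Dom 1 u) : ∃ C, ∀ j z, |V j u z| ≤ C := by
  obtain ⟨c, hc0, hc⟩ := hu.2
  refine ⟨∫ η, c * (S η * P 1 η), fun j z => ?_⟩
  rw [V, abs_neg, ← Real.norm_eq_abs]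
  refine norm_integral_le_of_norm_le ((SP_int le_rfl).const_mul c) ?_
  filter_upwards [k_le] with η hk
  rw [Real.norm_eq_abs, abs_mul, abs_mul]
  have := S_nonneg η
  calc _ ≤ 1 * (S η * (c * P 1 η)) := by
        gcongr
        exacts [abs_sin_le_one _, hk j, hc (z.1, η)]
    _ = _ := by ring

lemma Dom.bdd_conv {f : ℝ × X → ℝ} {m : ℕ} (hf : Dom m f) {g : X → ℝ} (hg : Integrable g)
    (t : ℝ) (ξ : X) : Integrable fun η => f (t, ξ - η) * g η := by
  obtain ⟨c, hc0, hc⟩ := hf.2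
  have := hf.1
  exact hg.bdd_mul (c := c) (Continuous.aestronglyMeasurable (by fun_prop))
    (Eventually.of_forall fun η => (hc _).trans (mul_le_of_le_one_right hc0 (P_le_one _ _)))

lemma Bq_eq {u : ℝ × X → ℝ} (hu : Dom 2 u) (t : ℝ) (ξ : X) :
    Bq u u (t, ξ) = ∑ i, (∫ η, ((ξ - η) i * u (t, ξ - η)) * (k i η * u (t, η))) +
      ∫ η, u (t, ξ - η) * u (t, η) := by
  have i1 : ∀ i ∈ (Finset.univ : Finset (Fin 3)),
      Integrable fun η => ((ξ - η) i * u (t, ξ - η)) * (k i η * u (t, η)) :=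
    fun i _ => (hu.coord i).bdd_conv (hu.mono.kint i t) t ξ
  have i2 : ∀ i ∈ (Finset.univ : Finset (Fin 3)),
      Integrable fun η => ξ i * (k i η * (u (t, ξ - η) * u (t, η))) :=
    fun i _ => (hu.BB_int (by norm_num) hu i t ξ).const_mul _
  rw [← integral_finsetSum _ i1, ← integral_add (integrable_finsetSum _ i1)
    (hu.bdd_conv (hu.mono.int le_rfl t) t ξ)]
  unfold Bq BB Bi
  simp_rw [← integral_const_mul]
  rw [← integral_finsetSum _ i2]
  refine integral_congr_ae ?_
  filter_upwards [ae_ne] with η h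
  have hq : q η ≠ 0 := (lt_of_lt_of_le (by have := h.1; positivity) (sq_le_q η 0)).ne'
  simp only [Fin.sum_univ_three, k, Pi.sub_apply]
  field_simp
  rw [q_eq]; ring

theorem pde {u : ℝ × X → ℝ} (hu : Dom 3 u) (he : ∀ z : ℝ × X, u (z.1, -z.2) = u z) (z : ℝ × E3) :
    F 0 (fun w => -q w.2 * u w + Bq u u w) z =
      ∑ i, F (0 + π / 2 + π / 2) (fun w => w.2 i * (w.2 i * u w)) z -
        ∑ j, F (0 + π / 2) (fun w => w.2 j * u w) z * V j u z + F 0 u z ^ 2 := by
  obtain ⟨t, x⟩ := z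
  have he' : ∀ ξ, u (t, -ξ) = u (t, ξ) := fun ξ => he (t, ξ)
  have a1 := hu.negq.mono.Fint 0 (t, x)
  have a2 := (hu.Bq hu).mono.Fint 0 (t, x)
  have e1 : F 0 (fun w => -q w.2 * u w + Bq u u w) (t, x) =
      F 0 (fun w => -q w.2 * u w) (t, x) + F 0 (Bq u u) (t, x) := by
    unfold F
    rw [← integral_add a1 a2]
    congr 1; funext ξ; ring
  have e2 : F 0 (fun w => -q w.2 * u w) (t, x) =
      ∑ i, F (0 + π / 2 + π / 2) (fun w => w.2 i * (w.2 i * u w)) (t, x) := by
    unfold F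
    rw [← integral_finsetSum _ fun i _ => ((hu.coord i).coord i).Fint _ (t, x)]
    congr 1; funext ξ
    rw [show (0 + π / 2 + π / 2) = π by ring, cos_add_pi, Fin.sum_univ_three, add_zero]
    simp only [q_eq]
    ring
  have f1 := fun i => fub ((hu.mono.coord i).int le_rfl t) (hu.mono.mono.kint i t) x
  have f2 := fub (hu.mono.mono.int le_rfl t) (hu.mono.mono.int le_rfl t) x
  have e3 : F 0 (Bq u u) (t, x) =
      ∑ i, (∫ ξ, cos (dot ξ x) * ∫ η, ((ξ - η) i * u (t, ξ - η)) * (k i η * u (t, η))) +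
        ∫ ξ, cos (dot ξ x) * ∫ η, u (t, ξ - η) * u (t, η) := by
    rw [← integral_finsetSum _ fun i _ => (f1 i).1,
      ← integral_add (integrable_finsetSum _ fun i _ => (f1 i).1) f2.1]
    unfold F
    congr 1; funext ξ
    rw [Bq_eq hu.mono, add_zero, mul_add, Finset.mul_sum]
  have o1 : ∫ ξ, sin (dot ξ x) * u (t, ξ) = 0 :=
    odd_int fun ξ => by rw [dot_neg, sin_neg, he']; ring
  have o2 : ∀ i, ∫ ξ, cos (dot ξ x) * (ξ i * u (t, ξ)) = 0 := fun i =>
    odd_int fun ξ => by rw [dot_neg, cos_neg, he', Pi.neg_apply]; ring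
  have e4 : ∀ j, F (0 + π / 2) (fun w => w.2 j * u w) (t, x) =
      -∫ ξ, sin (dot ξ x) * (ξ j * u (t, ξ)) := by
    intro j
    unfold F
    rw [← integral_neg]
    congr 1; funext ξ
    rw [zero_add, cos_add_pi_div_two]; ring
  rw [e1, e2, e3, f2.2, o1]
  simp_rw [(f1 _).2, o2, e4, V, F, add_zero]
  simp only [Fin.sum_univ_three]
  ring

end Pool.Agent.H.MP_e522c7_an
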