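import Pool.Agent.H.MP_e522c7_an.G

set_option autoImplicit false
open MeasureTheory Real Set Filter Topology

namespace Pool.Agent.H.MP_e522c7_an

lemma second_test {f f' : ℝ → ℝ} {a : ℝ} (h1 : ∀ r, HasDerivAt f (f' r) r)
    (h2 : HasDerivAt f' a 0) (hm : ∀ r, f 0 ≤ f r) : f' 0 = 0 ∧ 0 ≤ a := by
  have h0 : f' 0 = 0 := IsLocalMin.hasDerivAt_eq_zero (Eventually.of_forall hm) (h1 0)
  refine ⟨h0, not_lt.1 fun ha => ?_⟩
  have h3 := (hasDerivAt_iff_tendsto_slope_zero.1 h2).mono_left (nhdsGT_le_nhdsNE 0)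
  obtain ⟨δ, hδ, hs⟩ := mem_nhdsGT_iff_exists_Ioo_subset.1 (h3.eventually (gt_mem_nhds ha))
  obtain ⟨c, hc, e⟩ := exists_hasDerivAt_eq_slope f f' hδ
    (fun r _ => (h1 r).continuousAt.continuousWithinAt) (fun r _ => h1 r)
  have h4 := hs hc
  simp only [zero_add, h0, sub_zero, smul_eq_mul, mem_ofPred_eq] at h4
  have h5 : 0 ≤ f' c := by
    rw [e]; exact div_nonneg (sub_nonneg.2 (hm δ)) (sub_nonneg.2 (le_of_lt hδ))
  have := mul_nonneg (inv_pos.2 hc.1).le h5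
  linarith

lemma left_test {f : ℝ → ℝ} {a t : ℝ} (ht : 0 < t) (h : HasDerivAt f a t)
    (hm : ∀ s ∈ Icc 0 t, f t ≤ f s) : a ≤ 0 := by
  have h3 := (hasDerivAt_iff_tendsto_slope_zero.1 h).mono_left (nhdsLT_le_nhdsNE 0)
  refine le_of_tendsto h3 ?_
  filter_upwards [Ioo_mem_nhdsLT (neg_lt_zero.2 ht)] with r hr
  exact mul_nonpos_of_nonpos_of_nonneg (inv_nonpos.2 hr.2.le)
    (sub_nonneg.2 (hm _ ⟨by linarith [hr.1], by linarith [hr.2]⟩))

noncomputable def ee (i : Fin 3) : E3 := EuclideanSpace.single i 1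

lemma normsq (x : E3) : ‖x‖ ^ 2 = x 0 ^ 2 + x 1 ^ 2 + x 2 ^ 2 := by
  rw [EuclideanSpace.real_norm_sq_eq, Fin.sum_univ_three]

lemma normsq_line (x : E3) (i : Fin 3) (r : ℝ) :
    ‖x + r • ee i‖ ^ 2 = ‖x‖ ^ 2 + 2 * r * x i + r ^ 2 := by
  rw [normsq, normsq]
  fin_cases i <;> simp [ee] <;> ring

theorem maxp {n nt : ℝ × E3 → ℝ} {g h v : Fin 3 → ℝ × E3 → ℝ} {C : ℝ} (hc : Continuous n)
    (hb : ∀ z, |n z| ≤ C) (hv : ∀ j z, |v j z| ≤ C)
    (ht : ∀ t, 0 < t → ∀ x, HasDerivAt (fun s => n (s, x)) (nt (t, x)) t)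
    (hg : ∀ t, 0 < t → ∀ x i r,
      HasDerivAt (fun r : ℝ => n (t, x + r • ee i)) (g i (t, x + r • ee i)) r)
    (hh : ∀ t, 0 < t → ∀ x i, HasDerivAt (fun r : ℝ => g i (t, x + r • ee i)) (h i (t, x)) 0)
    (he : ∀ z, nt z = ∑ i, h i z - ∑ j, g j z * v j z + n z ^ 2)
    (h0 : ∀ x, 0 ≤ n (0, x)) (T : ℝ) (hT : 0 ≤ T) (y : E3) : 0 ≤ n (T, y) := by
  by_contra hneg
  push Not at hneg
  have hC : 0 ≤ C := (abs_nonneg _).trans (hb 0)
  set K := 7 + 3 * C with hK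
  have hK0 : 0 ≤ K := by positivity
  obtain ⟨ε, hε, hεy⟩ : ∃ ε > 0, n (T, y) + ε * exp (K * T) * (1 + ‖y‖ ^ 2) < 0 := by
    refine ⟨-n (T, y) / 2 / (exp (K * T) * (1 + ‖y‖ ^ 2)), by
      have : 0 < -n (T, y) := by linarith
      positivity, ?_⟩
    rw [mul_assoc, div_mul_cancel₀ _ (by positivity)]; linarith
  let w : ℝ × E3 → ℝ := fun z => n z + ε * exp (K * z.1) * (1 + ‖z.2‖ ^ 2)
  have wc : Continuous w := by simp only [w]; fun_prop
  set R := ‖y‖ + 1 + C / ε with hR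
  have hCe : 0 ≤ C / ε := by positivity
  obtain ⟨⟨t, x⟩, hz, hmin⟩ := (isCompact_Icc.prod (isCompact_closedBall (0 : E3) R)).exists_isMinOn
    (⟨(T, y), ⟨hT, le_rfl⟩, by simp [hR]; linarith⟩ :
      (Icc (0 : ℝ) T ×ˢ Metric.closedBall (0 : E3) R).Nonempty) wc.continuousOn
  have hw0 : w (t, x) < 0 :=
    lt_of_le_of_lt (hmin (a := (T, y)) ⟨⟨hT, le_rfl⟩, by simp [hR]; linarith⟩) hεy
  have hall : ∀ s ∈ Icc (0 : ℝ) T, ∀ z, w (t, x) ≤ w (s, z) := by
    intro s hs z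
    by_cases hzR : z ∈ Metric.closedBall (0 : E3) R
    · exact hmin (a := (s, z)) ⟨hs, hzR⟩
    · have h1 : R < ‖z‖ := by simpa using hzR
      have h2 : 1 ≤ exp (K * s) := Real.one_le_exp (mul_nonneg hK0 hs.1)
      have h3 : C / ε ≤ 1 + ‖z‖ ^ 2 := by nlinarith [norm_nonneg y]
      have h4 : C ≤ ε * (1 + ‖z‖ ^ 2) := by rwa [div_le_iff₀' hε] at h3
      have h5 : ε * (1 + ‖z‖ ^ 2) ≤ ε * exp (K * s) * (1 + ‖z‖ ^ 2) := by
        have : 0 < 1 + ‖z‖ ^ 2 := by positivity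
        nlinarith [mul_pos hε this]
      have := (abs_le.1 (hb (s, z))).1
      simp only [w] at hw0 ⊢
      linarith
  have ht0 : 0 < t := by
    rcases eq_or_lt_of_le hz.1.1 with h | h
    · exfalso
      have h' : t = 0 := h.symm
      subst h'
      have : 0 < ε * exp (K * 0) * (1 + ‖x‖ ^ 2) := by positivity
      simp only [w] at hw0
      linarith [h0 x]
    · exact h
  set δ := ε * exp (K * t) with hδ
  have hδ0 : 0 < δ := by positivity
  have a1 : nt (t, x) + ε * (exp (K * t) * K) * (1 + ‖x‖ ^ 2) ≤ 0 := by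
    refine left_test (f := fun s => w (s, x)) ht0 ?_ fun s hs => hall s ⟨hs.1, hs.2.trans hz.1.2⟩ x
    have := (((hasDerivAt_id t).const_mul K).exp.const_mul ε).mul_const (1 + ‖x‖ ^ 2)
    simp only [id, mul_one] at this
    exact (ht t ht0 x).add this
  have a2 : ∀ i, g i (t, x) + δ * (2 * x i) = 0 ∧ 0 ≤ h i (t, x) + δ * 2 := by
    intro i
    have := second_test (f := fun r => n (t, x + r • ee i) +
        δ * (1 + (‖x‖ ^ 2 + 2 * r * x i + r ^ 2)))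
      (f' := fun r => g i (t, x + r • ee i) + δ * (2 * x i + 2 * r)) (a := h i (t, x) + δ * 2)
      (fun r => (hg t ht0 x i r).add (HasDerivAt.const_mul δ (by
        have := (((((hasDerivAt_id r).const_mul 2).mul_const (x i)).const_add
          (‖x‖ ^ 2)).fun_add (hasDerivAt_pow 2 r)).const_add 1
        refine this.congr_deriv ?_
        simp)))
      ((hh t ht0 x i).add (HasDerivAt.const_mul δ (by
        simpa using ((hasDerivAt_id (0 : ℝ)).const_mul 2).const_add (2 * x i))))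
      (fun r => by
        have := hall t hz.1 (x + r • ee i)
        simp only [w, normsq_line] at this
        simpa using this)
    simpa using this
  have b : ∀ i, -(δ * (C * (1 + x i ^ 2))) ≤ -(g i (t, x) * v i (t, x)) := by
    intro i
    have e : g i (t, x) = -(δ * (2 * x i)) := by linarith [(a2 i).1]
    have h1 := abs_le.1 (hv i (t, x))
    rw [e]
    have : -(C * (1 + x i ^ 2)) ≤ 2 * x i * v i (t, x) := by
      nlinarith [mul_nonneg (sub_nonneg.2 h1.2) (sq_nonneg (x i - 1)),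
        mul_nonneg (by linarith [h1.1] : 0 ≤ v i (t, x) + C) (sq_nonneg (x i + 1))]
    nlinarith
  have e := he (t, x)
  simp only [Fin.sum_univ_three] at e
  have hx := normsq x
  have c0 := b 0
  have c1 := b 1
  have c2 := b 2
  have d0 := (a2 0).2
  have d1 := (a2 1).2
  have d2 := (a2 2).2
  have a3 : ε * (exp (K * t) * K) * (1 + ‖x‖ ^ 2) = δ * K * (1 + ‖x‖ ^ 2) := by rw [hδ]; ring
  rw [a3, hK, hx] at a1
  have hs : 0 ≤ x 0 ^ 2 + x 1 ^ 2 + x 2 ^ 2 := by positivity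
  nlinarith [sq_nonneg (n (t, x)), mul_nonneg hδ0.le hs, mul_nonneg (mul_nonneg hδ0.le hC) hs]

lemma F_line {h h' : ℝ × X → ℝ} (hh : Dom 2 h) (hh' : Dom 1 h') (hd : TD h h') (θ : ℝ)
    {t : ℝ} (ht : 0 < t) (x : E3) (i : Fin 3) (r : ℝ) :
    HasDerivAt (fun r : ℝ => F θ h (t, x + r • ee i))
      (F (θ + π / 2) (fun w => w.2 i * h w) (t, x + r • ee i)) r := by
  have h2 : HasDerivAt (fun r : ℝ => x + r • ee i) (ee i) r := by
    simpa using ((hasDerivAt_id r).smul_const (ee i)).const_add x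
  refine ((F_dx hh hh' hd θ ht (x + r • ee i)).comp_hasDerivAt r h2).congr_deriv ?_
  simp [ee]

theorem F_nonneg {u : ℝ × X → ℝ} (hu : Dom 3 u) (he : ∀ z : ℝ × X, u (z.1, -z.2) = u z)
    (hd : TD u (fun z => -q z.2 * u z + Bq u u z)) (h0 : ∀ x, 0 ≤ F 0 u (0, x))
    (t : ℝ) (ht : 0 ≤ t) (x : E3) : 0 ≤ F 0 u (t, x) := by
  have hd1 : Dom 2 (fun z => -q z.2 * u z + Bq u u z) := hu.negq.add (hu.Bq hu)
  obtain ⟨C1, h1⟩ := hu.mono.mono.Fbdd
  obtain ⟨C2, h2⟩ := V_bdd hu.mono.mono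
  refine maxp (C := max C1 C2) (hu.mono.mono.Fcont 0) (fun z => (h1 0 z).trans (le_max_left _ _))
    (fun j z => (h2 j z).trans (le_max_right _ _))
    (fun t ht x => F_dt hu.mono hd1.mono hd 0 ht x)
    (fun t ht x i r => F_line hu.mono hd1.mono hd 0 ht x i r)
    (fun t ht x i => ?_) (pde hu he) h0 t ht x
  simpa using F_line (hu.coord i) (hd1.coord i) (hd.mul fun ξ => ξ i) (0 + π / 2) ht x i 0

end Pool.Agent.H.MP_e522c7_an
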