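import Pool.Agent.H.MP_e522c7_an.H

set_option autoImplicit false
open MeasureTheory Real Set Filter Topology

namespace Pool.Agent.H.MP_e522c7_an

lemma gaussX_int {b : Fin 3 → ℝ} (hb : ∀ i, 0 < b i) :
    Integrable fun v : X => exp (-∑ i, b i * v i ^ 2) := by
  simp_rw [← Finset.sum_neg_distrib, Real.exp_sum, ← neg_mul]
  exact Integrable.fintype_prod (μ := fun _ => volume) (f := fun i y => exp (-b i * y ^ 2))
    fun i => integrable_exp_neg_mul_sq (hb i)

lemma gaussX {b : Fin 3 → ℝ} (hb : ∀ i, 0 < b i) (c : Fin 3 → ℝ) :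
    ∫ v : X, exp (-∑ i, b i * v i ^ 2) * cos (∑ i, c i * v i) =
      ∏ i, √(π / b i) * exp (-(c i ^ 2 / (4 * b i))) := by
  have h1 := GaussianFourier.integral_cexp_neg_sum_mul_add (b := fun i => (b i : ℂ))
    (fun i => by simpa using hb i) (fun i => Complex.I * c i)
  have h2 := GaussianFourier.integrable_cexp_neg_sum_mul_add (b := fun i => (b i : ℂ))
    (fun i => by simpa using hb i) (fun i => Complex.I * c i)
  have h3 := congrArg Complex.re h1
  rw [← RCLike.re_to_complex, ← integral_re h2] at h3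
  have e1 : ∀ i, ((π : ℂ) / b i) ^ (1 / 2 : ℂ) * Complex.exp ((Complex.I * c i) ^ 2 / (4 * b i)) =
      ((√(π / b i) * exp (-(c i ^ 2 / (4 * b i))) : ℝ) : ℂ) := by
    intro i
    have := hb i
    rw [Real.sqrt_eq_rpow, Complex.ofReal_mul, Complex.ofReal_cpow (by positivity),
      Complex.ofReal_exp, mul_pow, Complex.I_sq]
    push_cast
    congr 2; ring
  simp_rw [e1] at h3
  rw [← Complex.ofReal_prod, Complex.ofReal_re] at h3
  rw [← h3]
  congr 1; funext v
  have e2 : (-∑ i, (b i : ℂ) * (v i : ℂ) ^ 2 + ∑ i, Complex.I * c i * v i) =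
      ((-∑ i, b i * v i ^ 2 : ℝ) : ℂ) + ((∑ i, c i * v i : ℝ) : ℂ) * Complex.I := by
    push_cast
    rw [Finset.sum_mul]
    congr 2; funext i; ring
  rw [e2, RCLike.re_to_complex, Complex.exp_re]
  simp [-Complex.ofReal_sum, -Complex.ofReal_neg]

lemma toE_integral (f : E3 → ℝ) : ∫ z, f z = ∫ v : X, f (WithLp.toLp 2 v) :=
  ((PiLp.volume_preserving_toLp (Fin 3)).integral_comp
    (MeasurableEquiv.toLp 2 _).measurableEmbedding f).symm

lemma toE_int (f : E3 → ℝ) : Integrable f ↔ Integrable fun v : X => f (WithLp.toLp 2 v) :=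
  ((PiLp.volume_preserving_toLp (Fin 3)).integrable_comp_emb
    (MeasurableEquiv.toLp 2 _).measurableEmbedding).symm

lemma gE_int {s : ℝ} (hs : 0 < s) : Integrable fun z : E3 => exp (-(s * ‖z‖ ^ 2)) := by
  rw [toE_int]
  simpa [EuclideanSpace.real_norm_sq_eq, Finset.mul_sum] using
    gaussX_int (b := fun _ => s) fun _ => hs

lemma gauss0 {s : ℝ} (hs : 0 < s) (ξ : X) :
    ∫ z : E3, exp (-(s * ‖z‖ ^ 2)) * cos (dot ξ z) = √(π / s) ^ 3 * exp (-(q ξ / (4 * s))) := by
  rw [toE_integral]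
  have := gaussX (b := fun _ => s) (fun _ => hs) ξ
  rw [Finset.prod_mul_distrib, ← Real.exp_sum] at this
  simp only [EuclideanSpace.real_norm_sq_eq, Finset.mul_sum, dot]
  rw [this]
  simp [q, Finset.sum_div]

lemma coord_le (z : E3) (j : Fin 3) : |z j| ≤ ‖z‖ := by
  simpa using PiLp.norm_apply_le z j

lemma gE_int2 {s : ℝ} (hs : 0 < s) :
    Integrable fun z : E3 => (1 + ‖z‖ ^ 2) * exp (-(s * ‖z‖ ^ 2)) := by
  refine ((gE_int (half_pos hs)).const_mul (1 + 2 / s)).mono'
    (Continuous.aestronglyMeasurable (by fun_prop)) (Eventually.of_forall fun z => ?_)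
  rw [Real.norm_of_nonneg (by positivity)]
  have h1 : exp (-(s / 2 * ‖z‖ ^ 2)) = exp (s / 2 * ‖z‖ ^ 2) * exp (-(s * ‖z‖ ^ 2)) := by
    rw [← Real.exp_add]; congr 1; ring
  rw [h1, ← mul_assoc]
  apply mul_le_mul_of_nonneg_right _ (Real.exp_pos _).le
  have h2 := Real.add_one_le_exp (s / 2 * ‖z‖ ^ 2)
  have h3 : 2 / s * (s / 2 * ‖z‖ ^ 2) = ‖z‖ ^ 2 := by field_simp
  have h4 : 0 ≤ s / 2 * ‖z‖ ^ 2 := by positivity
  have h5 : 0 < 2 / s := by positivity
  nlinarith

lemma gE_int1 {s : ℝ} (hs : 0 < s) (j : Fin 3) :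
    Integrable fun z : E3 => z j * exp (-(s * ‖z‖ ^ 2)) := by
  refine (gE_int2 hs).mono' (Continuous.aestronglyMeasurable (by fun_prop))
    (Eventually.of_forall fun z => ?_)
  rw [Real.norm_eq_abs, abs_mul, abs_of_pos (Real.exp_pos _)]
  apply mul_le_mul_of_nonneg_right _ (Real.exp_pos _).le
  nlinarith [coord_le z j, sq_nonneg (‖z‖ - 1), norm_nonneg z]

lemma dot_line (ξ : X) (x : E3) (i : Fin 3) (r : ℝ) : dot ξ (x + r • ee i) = dot ξ x + r * ξ i := by
  simp only [dot, Fin.sum_univ_three]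
  fin_cases i <;> simp [ee] <;> ring

lemma gauss1 {s : ℝ} (hs : 0 < s) (ξ : X) (j : Fin 3) :
    ∫ z : E3, z j * exp (-(s * ‖z‖ ^ 2)) * sin (dot ξ z) =
      ξ j / (2 * s) * (√(π / s) ^ 3 * exp (-(q ξ / (4 * s)))) := by
  have b1 : ∀ {f : E3 → ℝ}, Integrable f → ∀ {c : ℝ → ℝ}, Continuous c → (∀ y, |c y| ≤ 1) →
      Integrable fun z => f z * c (dot ξ z) := fun hf c hc hb =>
    hf.mul_bdd (c := 1) (Continuous.aestronglyMeasurable (by fun_prop))
      (Eventually.of_forall fun _ => hb _)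
  have key := integral_bilinear_hasLineDerivAt_right_eq_neg_left_of_integrable
    (μ := (volume : Measure E3)) (B := ContinuousLinearMap.mul ℝ ℝ) (v := ee j)
    (f := fun z => exp (-(s * ‖z‖ ^ 2))) (f' := fun z => -(2 * s) * (z j * exp (-(s * ‖z‖ ^ 2))))
    (g := fun z => sin (dot ξ z)) (g' := fun z => ξ j * cos (dot ξ z))
    (b1 ((gE_int1 hs j).const_mul _) continuous_sin abs_sin_le_one)
    (by
      have := (b1 (gE_int hs) continuous_cos abs_cos_le_one).const_mul (ξ j)
      refine this.congr (Eventually.of_forall fun z => ?_)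
      simp; ring)
    (b1 (gE_int hs) continuous_sin abs_sin_le_one)
    (fun x _ => by
      unfold HasLineDerivAt
      simp only [normsq_line]
      have := ((((((hasDerivAt_id (0 : ℝ)).const_mul 2).mul_const (x j)).const_add
          (‖x‖ ^ 2)).fun_add (hasDerivAt_pow 2 0)).const_mul s).fun_neg.exp
      refine this.congr_deriv ?_
      simp; ring)
    (fun x _ => by
      unfold HasLineDerivAt
      simp only [dot_line]
      have := (((hasDerivAt_id (0 : ℝ)).mul_const (ξ j)).const_add (dot ξ x)).sin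
      refine this.congr_deriv ?_
      simp; ring)
  simp only [ContinuousLinearMap.mul_apply'] at key
  rw [← gauss0 hs ξ]
  have e1 : ∫ z : E3, exp (-(s * ‖z‖ ^ 2)) * (ξ j * cos (dot ξ z)) =
      ξ j * ∫ z : E3, exp (-(s * ‖z‖ ^ 2)) * cos (dot ξ z) := by
    rw [← integral_const_mul]; congr 1; funext z; ring
  have e2 : ∫ z : E3, -(2 * s) * (z j * exp (-(s * ‖z‖ ^ 2))) * sin (dot ξ z) =
      -(2 * s) * ∫ z : E3, z j * exp (-(s * ‖z‖ ^ 2)) * sin (dot ξ z) := by
    rw [← integral_const_mul]; congr 1; funext z; ring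
  rw [e1, e2] at key
  field_simp
  linarith

lemma dot_sub (ξ : X) (x z : E3) : dot ξ (x - z) = dot ξ x - dot ξ z := by
  simp [dot, mul_sub]

lemma gauss2 {s : ℝ} (hs : 0 < s) (ξ : X) (j : Fin 3) (x : E3) :
    ∫ z : E3, z j * exp (-(s * ‖z‖ ^ 2)) * cos (dot ξ (x - z)) =
      sin (dot ξ x) * (ξ j / (2 * s) * (√(π / s) ^ 3 * exp (-(q ξ / (4 * s))))) := by
  have b1 : ∀ {c : ℝ → ℝ}, Continuous c → (∀ y, |c y| ≤ 1) →
      Integrable fun z : E3 => z j * exp (-(s * ‖z‖ ^ 2)) * c (dot ξ z) := fun hc hb =>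
    (gE_int1 hs j).mul_bdd (c := 1) (Continuous.aestronglyMeasurable (by fun_prop))
      (Eventually.of_forall fun _ => hb _)
  have o : ∫ z : E3, z j * exp (-(s * ‖z‖ ^ 2)) * cos (dot ξ z) = 0 := by
    have h1 := integral_neg_eq_self (fun z : E3 => z j * exp (-(s * ‖z‖ ^ 2)) * cos (dot ξ z))
      volume
    have h2 : ∀ z : E3, dot ξ (-z) = -dot ξ z := fun z => by simp [dot]
    simp only [h2, cos_neg, norm_neg, PiLp.neg_apply, neg_mul, integral_neg] at h1
    linarith
  rw [← gauss1 hs, ← integral_const_mul, ← zero_add (∫ z : E3, sin (dot ξ x) * _),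
    ← mul_zero (cos (dot ξ x)), ← o, ← integral_const_mul,
    ← integral_add ((b1 continuous_cos abs_cos_le_one).const_mul _)
      ((b1 continuous_sin abs_sin_le_one).const_mul _)]
  congr 1; funext z
  rw [dot_sub, cos_sub]; ring

theorem n_int {w : X → ℝ} (hw : Integrable w) {c : ℝ} (hc : ∀ ξ, |w ξ| ≤ c) {n : E3 → ℝ}
    (hn : ∀ x, n x = ∫ ξ, cos (dot ξ x) * w ξ) (hcont : Continuous n) (h0 : ∀ x, 0 ≤ n x) :
    Integrable n := by
  have hc0 : 0 ≤ c := (abs_nonneg _).trans (hc 0)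
  have hb : ∀ x, ‖n x‖ ≤ ∫ ξ, ‖w ξ‖ := fun x => by
    rw [hn]
    exact norm_integral_le_of_norm_le hw.norm (Eventually.of_forall fun ξ => cos_mul_le _ _)
  have key : ∀ s, 0 < s → ∫ x, exp (-(s * ‖x‖ ^ 2)) * n x ≤ c * (2 * π) ^ 3 := by
    intro s hs
    have h1 : Integrable (fun z : E3 × X => cos (dot z.2 z.1) * (exp (-(s * ‖z.1‖ ^ 2)) * w z.2))
        (volume.prod volume) :=
      ((gE_int hs).mul_prod hw).bdd_mul (c := 1) (Continuous.aestronglyMeasurable (by fun_prop))
        (Eventually.of_forall fun _ => abs_cos_le_one _)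
    have e1 : ∀ x, exp (-(s * ‖x‖ ^ 2)) * n x =
        ∫ ξ, cos (dot ξ x) * (exp (-(s * ‖x‖ ^ 2)) * w ξ) := by
      intro x; rw [hn, ← integral_const_mul]; congr 1; funext ξ; ring
    simp_rw [e1]
    rw [integral_integral_swap (f := fun x ξ => cos (dot ξ x) * (exp (-(s * ‖x‖ ^ 2)) * w ξ)) h1]
    have e2 : ∀ ξ, ∫ x : E3, cos (dot ξ x) * (exp (-(s * ‖x‖ ^ 2)) * w ξ) =
        w ξ * (√(π / s) ^ 3 * exp (-∑ i, 1 / (4 * s) * ξ i ^ 2)) := by
      intro ξ
      rw [← Finset.mul_sum, show 1 / (4 * s) * ∑ i, ξ i ^ 2 = q ξ / (4 * s) by rw [q]; ring,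
        ← gauss0 hs, ← integral_const_mul]
      congr 1; funext x; ring
    simp_rw [e2]
    have h4 : ∀ _i : Fin 3, 0 < 1 / (4 * s) := fun _ => by positivity
    have h5 := gaussX h4 0
    simp only [Pi.zero_apply, zero_mul, Finset.sum_const_zero, cos_zero, mul_one, ne_eq,
      OfNat.ofNat_ne_zero, not_false_eq_true, zero_pow, zero_div, neg_zero, exp_zero,
      Finset.prod_const, Finset.card_univ, Fintype.card_fin] at h5
    refine (Real.le_norm_self _).trans ((norm_integral_le_of_norm_le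
      (((gaussX_int h4).const_mul (√(π / s) ^ 3)).const_mul c)
      (Eventually.of_forall fun ξ => ?_)).trans (le_of_eq ?_))
    · rw [Real.norm_eq_abs, abs_mul, abs_of_nonneg (a := _ * _) (by positivity)]
      exact mul_le_mul_of_nonneg_right (hc ξ) (by positivity)
    · rw [integral_const_mul, integral_const_mul, h5, ← mul_pow, ← Real.sqrt_mul (by positivity),
        show π / s * (π / (1 / (4 * s))) = (2 * π) ^ 2 by field_simp; ring,
        Real.sqrt_sq (by positivity)]
  refine (aecover_closedBall (x := (0 : E3)) (l := atTop) (r := fun r : ℝ => r)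
    tendsto_id).integrable_of_integral_bounded_of_nonneg_ae (exp 1 * (c * (2 * π) ^ 3))
    (fun r => hcont.continuousOn.integrableOn_compact (isCompact_closedBall _ _))
    (Eventually.of_forall h0) ?_
  filter_upwards [eventually_gt_atTop 0] with r hr
  have hs : 0 < 1 / r ^ 2 := by positivity
  have i1 : Integrable fun x => exp (-(1 / r ^ 2 * ‖x‖ ^ 2)) * n x :=
    (gE_int hs).mul_bdd hcont.aestronglyMeasurable (Eventually.of_forall hb)
  refine le_trans ?_ (mul_le_mul_of_nonneg_left (key _ hs) (Real.exp_pos 1).le)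
  rw [← integral_const_mul]
  refine (setIntegral_mono_on (hcont.continuousOn.integrableOn_compact (isCompact_closedBall _ _))
    (i1.const_mul (exp 1)).integrableOn measurableSet_closedBall fun x hx => ?_).trans
    (setIntegral_le_integral (i1.const_mul _) (Eventually.of_forall fun x => by
      have := h0 x; positivity))
  rw [← mul_assoc, ← Real.exp_add]
  refine le_mul_of_one_le_left (h0 x) (Real.one_le_exp ?_)
  have h1 : ‖x‖ ≤ r := by simpa using hx
  have h2 : 1 / r ^ 2 * ‖x‖ ^ 2 ≤ 1 := by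
    rw [one_div, inv_mul_le_iff₀ (by positivity), mul_one]; gcongr
  linarith

end Pool.Agent.H.MP_e522c7_an
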