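import Pool.Agent.H.MP_e522c7_an.I

set_option autoImplicit false
open MeasureTheory Real Set Filter Topology

namespace Pool.Agent.H.MP_e522c7_an

lemma sub_fub {Y : Type} [MeasureSpace Y] [SFinite (volume : Measure Y)] {a m : Y → ℝ}
    {κ : Y → ℝ → ℝ} (ha : AEStronglyMeasurable a) (hκ : Measurable fun z : Y × ℝ => κ z.1 z.2)
    (hpos : ∀ y s, 0 < s → 0 ≤ κ y s)
    (hI : ∀ᵐ y, IntegrableOn (κ y) (Ioi 0) ∧ ∫ s in Ioi 0, κ y s = m y)
    (ham : Integrable fun y => a y * m y) :
    ∫ y, a y * m y = ∫ s in Ioi (0 : ℝ), ∫ y, a y * κ y s := by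
  have h1 : Integrable (fun z : Y × ℝ => a z.1 * κ z.1 z.2)
      (volume.prod (volume.restrict (Ioi (0 : ℝ)))) := by
    have hm : AEStronglyMeasurable (fun z : Y × ℝ => a z.1 * κ z.1 z.2)
        (volume.prod (volume.restrict (Ioi (0 : ℝ)))) := ha.comp_fst.mul hκ.aestronglyMeasurable
    rw [integrable_prod_iff hm]
    refine ⟨hI.mono fun y hy => Integrable.const_mul hy.1 (a y), ham.norm.congr ?_⟩
    filter_upwards [hI] with y hy
    rw [← hy.2, norm_mul, Real.norm_of_nonneg
      (setIntegral_nonneg measurableSet_Ioi fun s hs => hpos y s hs), ← integral_const_mul]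
    refine setIntegral_congr_fun measurableSet_Ioi fun s hs => ?_
    simp only [norm_mul, Real.norm_of_nonneg (hpos y s hs)]
  rw [← integral_integral_swap (f := fun y s => a y * κ y s) h1]
  refine integral_congr_ae ?_
  filter_upwards [hI] with y hy
  rw [integral_const_mul, hy.2]

noncomputable def sg (j : ℕ) : E3 → ℝ := indicator (Metric.ball (0 : E3) 1) fun z => (‖z‖ ^ j)⁻¹

lemma sg_nonneg (j : ℕ) (z : E3) : 0 ≤ sg j z := indicator_nonneg (fun z _ => by positivity) z

lemma sg_int {j : ℕ} (hj : j < 3) : Integrable (sg j) := by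
  unfold sg
  rw [integrable_indicator_iff measurableSet_ball]
  refine integrableOn_ball_of_norm_le_rpow (α := j) (C := 1) (by simp) (by simpa using hj)
    (Filter.Eventually.of_forall fun y => ?_) (Measurable.aestronglyMeasurable (by fun_prop))
  rw [Real.norm_of_nonneg (by positivity), Real.rpow_neg (norm_nonneg _), Real.rpow_natCast, one_mul]

lemma inv_le_sg (j : ℕ) (z : E3) : (‖z‖ ^ j)⁻¹ ≤ 1 + sg j z := by
  by_cases h : z ∈ Metric.ball (0 : E3) 1
  · rw [sg, indicator_of_mem h]; linarith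
  · have h1 : 1 ≤ ‖z‖ := by simpa using h
    have : (‖z‖ ^ j)⁻¹ ≤ 1 := inv_le_one_of_one_le₀ (one_le_pow₀ h1)
    linarith [sg_nonneg j z]

lemma pot_int {n : E3 → ℝ} (hn : Integrable n) {C : ℝ} (hb : ∀ x, |n x| ≤ C) {j : ℕ} (hj : j < 3)
    (x : E3) : Integrable (fun y => n y * (‖x - y‖ ^ j)⁻¹) ∧
      |∫ y, n y * (‖x - y‖ ^ j)⁻¹| ≤ (∫ y, ‖n y‖) + C * ∫ y, sg j y := by
  have i1 : Integrable fun y => sg j (x - y) := (sg_int hj).comp_sub_left x
  have i2 : Integrable fun y => ‖n y‖ + C * sg j (x - y) := hn.norm.add (i1.const_mul C)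
  have hb' : ∀ y, ‖n y * (‖x - y‖ ^ j)⁻¹‖ ≤ ‖n y‖ + C * sg j (x - y) := by
    intro y
    rw [norm_mul, Real.norm_of_nonneg (r := _⁻¹) (by positivity), Real.norm_eq_abs]
    nlinarith [mul_le_mul_of_nonneg_left (inv_le_sg j (x - y)) (abs_nonneg (n y)),
      mul_le_mul_of_nonneg_right (hb y) (sg_nonneg j (x - y))]
  refine ⟨i2.mono' (hn.aestronglyMeasurable.mul (Measurable.aestronglyMeasurable (by fun_prop)))
    (Eventually.of_forall hb'), ?_⟩
  rw [← Real.norm_eq_abs]
  refine (norm_integral_le_of_norm_le i2 (Eventually.of_forall hb')).trans (le_of_eq ?_)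
  rw [integral_add hn.norm (i1.const_mul C), integral_const_mul,
    integral_sub_left_eq_self (sg j) volume x]

lemma ker1 {z : E3} (hz : z ≠ 0) :
    IntegrableOn (fun s : ℝ => √s * exp (-(s * ‖z‖ ^ 2))) (Ioi 0) ∧
      ∫ s in Ioi (0 : ℝ), √s * exp (-(s * ‖z‖ ^ 2)) = √π / 2 * (‖z‖ ^ 3)⁻¹ := by
  have h0 : 0 < ‖z‖ := norm_pos_iff.2 hz
  have h1 := integrableOn_rpow_mul_exp_neg_mul_rpow (p := 1) (s := 1 / 2) (b := ‖z‖ ^ 2)
    (by norm_num) one_pos (by positivity)
  have h2 := Real.integral_rpow_mul_exp_neg_mul_Ioi (a := 3 / 2) (r := ‖z‖ ^ 2) (by norm_num)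
    (by positivity)
  constructor
  · refine h1.congr_fun (fun s _ => ?_) measurableSet_Ioi
    simp only [Real.rpow_one, Real.sqrt_eq_rpow]
    congr 2; ring
  · have e : Gamma (3 / 2) = √π / 2 := by
      rw [show (3 / 2 : ℝ) = 1 / 2 + 1 by norm_num, Real.Gamma_add_one (by norm_num),
        Real.Gamma_one_half_eq]; ring
    have e2 : (1 / ‖z‖ ^ 2) ^ (3 / 2 : ℝ) = (‖z‖ ^ 3)⁻¹ := by
      rw [one_div, Real.inv_rpow (by positivity), ← Real.rpow_natCast, ← Real.rpow_mul h0.le,
        ← Real.rpow_natCast]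
      norm_num
    rw [e, e2, mul_comm] at h2
    rw [← h2]
    congr 1; funext s
    rw [Real.sqrt_eq_rpow, mul_comm s]; norm_num

lemma ker2 {b : ℝ} (hb : 0 < b) :
    IntegrableOn (fun s : ℝ => (s ^ 2)⁻¹ * exp (-(b / (4 * s)))) (Ioi 0) ∧
      ∫ s in Ioi (0 : ℝ), (s ^ 2)⁻¹ * exp (-(b / (4 * s))) = 4 / b := by
  have h0 : -(b / 4) < 0 := by linarith
  have h1 := (integrableOn_Ioi_comp_rpow_iff (fun y => exp (-(b / 4) * y)) (p := -1)
    (by norm_num)).2 (integrableOn_exp_mul_Ioi h0 0)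
  have h2 := integral_comp_rpow_Ioi (fun y => exp (-(b / 4) * y)) (p := -1) (by norm_num)
  have e : ∀ s ∈ Ioi (0 : ℝ), (|(-1 : ℝ)| * s ^ ((-1 : ℝ) - 1)) • exp (-(b / 4) * s ^ (-1 : ℝ)) =
      (s ^ 2)⁻¹ * exp (-(b / (4 * s))) := by
    intro s hs
    have hs' : 0 < s := hs
    rw [show (-1 : ℝ) - 1 = -(2 : ℕ) by norm_num, Real.rpow_neg hs'.le, Real.rpow_natCast,
      Real.rpow_neg_one]
    simp only [abs_neg, abs_one, one_mul, smul_eq_mul]
    congr 2; field_simp
  refine ⟨h1.congr_fun e measurableSet_Ioi, ?_⟩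
  rw [← setIntegral_congr_fun measurableSet_Ioi e, h2, integral_exp_mul_Ioi h0]
  simp

theorem pot_eq {w : X → ℝ} (hw : Integrable w) (j : Fin 3) (hk : Integrable fun η => k j η * w η)
    {n : E3 → ℝ} (hn : ∀ x, n x = ∫ ξ, cos (dot ξ x) * w ξ) (hi : Integrable n) {C : ℝ}
    (hb : ∀ x, |n x| ≤ C) (x : E3) :
    ∫ y, n y / ‖x - y‖ ^ 3 * (x - y) j = 4 * π * ∫ η, sin (dot η x) * (k j η * w η) := by
  have i0 : Integrable fun z => n (x - z) := hi.comp_sub_left x
  have i1 : Integrable fun z : E3 => n (x - z) * z j * (√π / 2 * (‖z‖ ^ 3)⁻¹) := by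
    have := ((pot_int i0 (fun z => hb (x - z)) (j := 2) (by norm_num) 0).1.norm).const_mul (√π / 2)
    refine this.mono' ((i0.aestronglyMeasurable.mul
      (Continuous.aestronglyMeasurable (by fun_prop))).mul
      (Measurable.aestronglyMeasurable (by fun_prop))) (Eventually.of_forall fun z => ?_)
    simp only [zero_sub, norm_neg, norm_mul, norm_inv, norm_pow, norm_norm]
    rw [Real.norm_of_nonneg (r := √π / 2) (by positivity)]
    rcases eq_or_ne z 0 with rfl | hz
    · simp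
    have h0 : 0 < ‖z‖ := norm_pos_iff.2 hz
    calc _ ≤ ‖n (x - z)‖ * ‖z‖ * (√π / 2 * (‖z‖ ^ 3)⁻¹) := by
          gcongr; exact coord_le z j
      _ = _ := by field_simp
  have s1 := sub_fub (a := fun z : E3 => n (x - z) * z j)
    (κ := fun z s => √s * exp (-(s * ‖z‖ ^ 2)))
    (i0.aestronglyMeasurable.mul (Continuous.aestronglyMeasurable (by fun_prop)))
    (by fun_prop) (fun z s _ => by positivity)
    (by filter_upwards [Measure.ae_ne volume (0 : E3)] with z hz using ker1 hz) i1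
  have i2 : Integrable fun η => sin (dot η x) * w η * η j * (4 / q η) := by
    refine ((int_trig hk continuous_sin abs_sin_le_one x).const_mul 4).congr
      (Eventually.of_forall fun η => ?_)
    simp only [k]; ring
  have s2 := sub_fub (a := fun η => sin (dot η x) * w η * η j)
    (κ := fun η s => (s ^ 2)⁻¹ * exp (-(q η / (4 * s))))
    ((int_trig hw continuous_sin abs_sin_le_one x).aestronglyMeasurable.mul
      (Continuous.aestronglyMeasurable (by fun_prop)))
    (by have := q_cont.measurable; fun_prop) (fun z s _ => by positivity)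
    (by
      filter_upwards [ae_ne] with η h
      exact ker2 (lt_of_lt_of_le (by have := h.1; positivity) (sq_le_q η 0))) i2
  have s3 : ∀ s ∈ Ioi (0 : ℝ), ∫ z : E3, n (x - z) * z j * (√s * exp (-(s * ‖z‖ ^ 2))) =
      π * √π / 2 * ∫ η, sin (dot η x) * w η * η j * ((s ^ 2)⁻¹ * exp (-(q η / (4 * s)))) := by
    intro s hs
    have hs' : 0 < s := hs
    have h1 : Integrable (fun p : E3 × X => cos (dot p.2 (x - p.1)) *
        ((p.1 j * exp (-(s * ‖p.1‖ ^ 2))) * w p.2)) (volume.prod volume) :=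
      ((gE_int1 hs' j).mul_prod hw).bdd_mul (c := 1) (Continuous.aestronglyMeasurable (by fun_prop))
        (Eventually.of_forall fun _ => abs_cos_le_one _)
    have e1 : ∀ z : E3, n (x - z) * z j * (√s * exp (-(s * ‖z‖ ^ 2))) =
        √s * ∫ ξ, cos (dot ξ (x - z)) * ((z j * exp (-(s * ‖z‖ ^ 2))) * w ξ) := by
      intro z
      rw [hn, mul_assoc, ← integral_mul_const, ← integral_const_mul]; congr 1; funext ξ; ring
    simp_rw [e1]
    rw [integral_const_mul, integral_integral_swap (f := fun z ξ => cos (dot ξ (x - z)) *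
      ((z j * exp (-(s * ‖z‖ ^ 2))) * w ξ)) h1, ← integral_const_mul, ← integral_const_mul]
    congr 1; funext η
    have e2 : ∫ z : E3, cos (dot η (x - z)) * ((z j * exp (-(s * ‖z‖ ^ 2))) * w η) =
        w η * ∫ z : E3, z j * exp (-(s * ‖z‖ ^ 2)) * cos (dot η (x - z)) := by
      rw [← integral_const_mul]; congr 1; funext z; ring
    have e3 : √s * √(π / s) ^ 3 = π * √π / s := by
      have a1 : √(π / s) ^ 2 = π / s := Real.sq_sqrt (by positivity)
      have a2 : √s * √(π / s) = √π := by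
        rw [← Real.sqrt_mul hs'.le]; congr 1; field_simp
      calc √s * √(π / s) ^ 3 = (√s * √(π / s)) * √(π / s) ^ 2 := by ring
        _ = _ := by rw [a1, a2]; ring
    rw [e2, gauss2 hs']
    calc _ = (√s * √(π / s) ^ 3) * (w η * sin (dot η x) * (η j / (2 * s)) *
        exp (-(q η / (4 * s)))) := by ring
      _ = _ := by rw [e3]; field_simp
  rw [setIntegral_congr_fun measurableSet_Ioi s3, integral_const_mul, ← s2] at s1
  have e4 : ∫ z : E3, n (x - z) * z j * (√π / 2 * (‖z‖ ^ 3)⁻¹) =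
      √π / 2 * ∫ y, n y / ‖x - y‖ ^ 3 * (x - y) j := by
    rw [← integral_const_mul, ← integral_sub_left_eq_self _ volume x]
    congr 1; funext y
    rw [sub_sub_cancel]; ring
  have e5 : ∫ η, sin (dot η x) * w η * η j * (4 / q η) =
      4 * ∫ η, sin (dot η x) * (k j η * w η) := by
    rw [← integral_const_mul]; congr 1; funext η; simp only [k]; ring
  rw [e4, e5] at s1
  have hp : 0 < √π := Real.sqrt_pos.2 pi_pos
  apply mul_left_cancel₀ (a := √π / 2) (by positivity)
  rw [s1]; ring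

lemma vec_int {n : E3 → ℝ} (hi : Integrable n) {C : ℝ} (hb : ∀ x, |n x| ≤ C) (x : E3) :
    Integrable fun y => (n y / ‖x - y‖ ^ 3) • (x - y) := by
  refine ((pot_int hi hb (j := 2) (by norm_num) x).1.norm).mono' ?_
    (Eventually.of_forall fun y => ?_)
  · simp_rw [div_eq_mul_inv]
    exact (hi.aestronglyMeasurable.mul (Measurable.aestronglyMeasurable (by fun_prop))).smul
      (Continuous.aestronglyMeasurable (by fun_prop))
  · simp only [norm_smul, norm_div, norm_mul, norm_inv, norm_pow, norm_norm]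
    rcases eq_or_ne (x - y) 0 with h | hz
    · simp [h]
    have h0 : 0 < ‖x - y‖ := norm_pos_iff.2 hz
    apply le_of_eq; field_simp

end Pool.Agent.H.MP_e522c7_an
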