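import Pool.Agent.H.MP_e522c7_an.J

set_option autoImplicit false
open MeasureTheory Real Set Filter Topology

namespace Pool.Agent.H.MP_e522c7_an

noncomputable def g (L : ℝ) (x : E3) : ℝ :=
  exp (-∑ i, (![1 / 4, 1 / 4, 1 / (4 * L ^ 2)] : Fin 3 → ℝ) i * x i ^ 2)

lemma g_eq (L : ℝ) (x : E3) :
    g L x = exp (-(x 0 ^ 2 / 4 + x 1 ^ 2 / 4 + x 2 ^ 2 / (4 * L ^ 2))) := by
  simp only [g, Fin.sum_univ_three, Matrix.cons_val_zero, Matrix.cons_val_one, Matrix.cons_val]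
  congr 2; ring

lemma g_pos (L : ℝ) (x : E3) : 0 < g L x := Real.exp_pos _

lemma g_cont (L : ℝ) : Continuous (g L) := by unfold g; fun_prop

lemma g_le {L : ℝ} (hL : 1 ≤ L) (x : E3) : g L x ≤ exp (-(1 / (4 * L ^ 2) * ‖x‖ ^ 2)) := by
  rw [g_eq, normsq]
  apply Real.exp_le_exp.2
  have h1 : 1 / (4 * L ^ 2) ≤ 1 / 4 := by
    apply one_div_le_one_div_of_le (by norm_num); nlinarith
  have : x 2 ^ 2 / (4 * L ^ 2) = 1 / (4 * L ^ 2) * x 2 ^ 2 := by ring
  nlinarith [sq_nonneg (x 0), sq_nonneg (x 1)]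

lemma g_le_one (L : ℝ) (x : E3) : g L x ≤ 1 := by
  rw [g_eq]; exact Real.exp_le_one_iff.2 (neg_nonpos.2 (by positivity))

lemma g_ge {L : ℝ} (hL : 1 ≤ L) {x : E3} (h0 : |x 0| ≤ 1) (h1 : |x 1| ≤ 1) (h2 : |x 2| ≤ L) :
    1 / 4 ≤ g L x := by
  rw [g_eq]
  have a0 : x 0 ^ 2 ≤ 1 := by rwa [sq_le_one_iff_abs_le_one]
  have a1 : x 1 ^ 2 ≤ 1 := by rwa [sq_le_one_iff_abs_le_one]
  have a2 : x 2 ^ 2 / (4 * L ^ 2) ≤ 1 / 4 := by
    rw [div_le_iff₀ (by positivity)]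
    nlinarith [sq_abs (x 2), abs_nonneg (x 2)]
  linarith [Real.add_one_le_exp (-(x 0 ^ 2 / 4 + x 1 ^ 2 / 4 + x 2 ^ 2 / (4 * L ^ 2)))]

lemma g_int2 {L : ℝ} (hL : 1 ≤ L) : Integrable fun x => (1 + ‖x‖ ^ 2) * g L x := by
  have := g_cont L
  refine (gE_int2 (s := 1 / (4 * L ^ 2)) (by positivity)).mono'
    (Continuous.aestronglyMeasurable (by fun_prop)) (Eventually.of_forall fun x => ?_)
  rw [Real.norm_of_nonneg (by have := g_pos L x; positivity)]
  exact mul_le_mul_of_nonneg_left (g_le hL x) (by positivity)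

lemma g_int {L : ℝ} (hL : 1 ≤ L) : Integrable (g L) :=
  (gE_int (s := 1 / (4 * L ^ 2)) (by positivity)).mono' (g_cont L).aestronglyMeasurable
    (Eventually.of_forall fun x => by rw [Real.norm_of_nonneg (g_pos L x).le]; exact g_le hL x)

lemma g_mass {L : ℝ} (hL : 1 ≤ L) : ∫ x, g L x ≤ 64 * L := by
  have hb : ∀ i, 0 < (![1 / 4, 1 / 4, 1 / (4 * L ^ 2)] : Fin 3 → ℝ) i := by
    intro i; fin_cases i <;> simp; positivity
  have h := gaussX hb 0
  rw [toE_integral]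
  simp only [Pi.zero_apply, zero_mul, Finset.sum_const_zero, cos_zero, mul_one, ne_eq,
      OfNat.ofNat_ne_zero, not_false_eq_true, zero_pow, zero_div, neg_zero, exp_zero,
      Fin.prod_univ_three, Matrix.cons_val_zero, Matrix.cons_val_one, Matrix.cons_val] at h
  simp only [g]
  rw [h]
  have a1 : √(π / (1 / 4)) ≤ 4 := Real.sqrt_le_iff.2 ⟨by norm_num, by linarith [pi_le_four]⟩
  have a2 : √(π / (1 / (4 * L ^ 2))) ≤ 4 * L := Real.sqrt_le_iff.2 ⟨by positivity, by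
    rw [div_div_eq_mul_div, div_one]
    nlinarith [pi_le_four, sq_nonneg L]⟩
  calc _ ≤ 4 * 4 * (4 * L) := by gcongr
    _ = _ := by ring

lemma prod_E {f : Fin 3 → ℝ → ℝ} (hf : ∀ i, Integrable (f i)) :
    Integrable (fun x : E3 => f 0 (x 0) * f 1 (x 1) * f 2 (x 2)) ∧
      ∫ x : E3, f 0 (x 0) * f 1 (x 1) * f 2 (x 2) = (∫ y, f 0 y) * (∫ y, f 1 y) * ∫ y, f 2 y := by
  rw [toE_int, toE_integral, ← Fin.prod_univ_three fun i => ∫ y, f i y,
    ← integral_fintype_prod_volume_eq_prod]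
  simp only [Fin.prod_univ_three]
  refine ⟨?_, trivial⟩
  have := Integrable.fintype_prod (μ := fun _ => volume) hf
  simp only [Fin.prod_univ_three] at this
  exact this

noncomputable def ind (a : ℝ) : ℝ → ℝ := indicator (Icc 0 a) 1

lemma ind_int (a : ℝ) : Integrable (ind a) :=
  (integrable_indicator_iff measurableSet_Icc).2 (continuous_const.continuousOn.integrableOn_Icc)

lemma ind_integral {a : ℝ} (ha : 0 ≤ a) : ∫ y, ind a y = a := by
  rw [ind, integral_indicator_one measurableSet_Icc]; simp [ha]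

noncomputable def lg (L : ℝ) : ℝ → ℝ := indicator (Icc 1 L) fun y => 1 / 3 * y⁻¹

lemma lg_int (L : ℝ) : Integrable (lg L) :=
  (integrable_indicator_iff measurableSet_Icc).2 (ContinuousOn.integrableOn_Icc
    (continuousOn_const.mul (continuousOn_inv₀.mono fun y hy => by
      have := hy.1; simp; linarith)))

lemma lg_integral {L : ℝ} (hL : 1 ≤ L) : ∫ y, lg L y = log L / 3 := by
  rw [lg, integral_indicator measurableSet_Icc, integral_Icc_eq_integral_Ioc,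
    ← intervalIntegral.integral_of_le hL, intervalIntegral.integral_const_mul,
    integral_inv_of_pos one_pos (by linarith)]
  simp; ring

lemma pot_ge {L : ℝ} (hL : 1 ≤ L) {x : E3} (h0 : x 0 ∈ Icc (0 : ℝ) 1) (h1 : x 1 ∈ Icc (0 : ℝ) 1)
    (h2 : x 2 ∈ Icc (0 : ℝ) L) : log L / 12 ≤ ∫ y, g L y * (‖x - y‖ ^ 1)⁻¹ := by
  obtain ⟨i1, i2⟩ := prod_E (f := ![ind 1, ind 1, lg L]) (fun i => by
    fin_cases i
    exacts [ind_int 1, ind_int 1, lg_int L])
  simp only [Matrix.cons_val_zero, Matrix.cons_val_one, Matrix.cons_val, ind_integral zero_le_one,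
    lg_integral hL, one_mul] at i1 i2
  have i3 := (pot_int (g_int hL) (C := 1)
    (fun x => by rw [abs_of_pos (g_pos L x)]; exact g_le_one L x) (j := 1) (by norm_num) x).1
  have e : log L / 12 = ∫ y : E3, 1 / 4 * (ind 1 ((x - y) 0) * ind 1 ((x - y) 1) * lg L ((x - y) 2)) := by
    rw [integral_const_mul, integral_sub_left_eq_self
      (fun z : E3 => ind 1 (z 0) * ind 1 (z 1) * lg L (z 2)) volume x, i2]; ring
  rw [e]
  refine integral_mono ((i1.comp_sub_left x).const_mul _) i3 fun y => ?_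
  have hp : 0 ≤ g L y * (‖x - y‖ ^ 1)⁻¹ := by have := g_pos L y; positivity
  by_cases c0 : (x - y) 0 ∈ Icc (0 : ℝ) 1
  swap
  · simpa only [ind, indicator_of_notMem c0, zero_mul, mul_zero] using hp
  by_cases c1 : (x - y) 1 ∈ Icc (0 : ℝ) 1
  swap
  · simpa only [ind, indicator_of_notMem c1, zero_mul, mul_zero] using hp
  by_cases c2 : (x - y) 2 ∈ Icc (1 : ℝ) L
  swap
  · simpa only [lg, indicator_of_notMem c2, zero_mul, mul_zero] using hp
  simp only [ind, lg, indicator_of_mem c0, indicator_of_mem c1, indicator_of_mem c2, Pi.one_apply,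
    one_mul, pow_one]
  have hg : 1 / 4 ≤ g L y := by
    simp only [PiLp.sub_apply, mem_Icc] at c0 c1 c2 h0 h1 h2
    refine g_ge hL (abs_le.2 ⟨?_, ?_⟩) (abs_le.2 ⟨?_, ?_⟩) (abs_le.2 ⟨?_, ?_⟩) <;> linarith
  generalize x - y = z at *
  have hz := normsq z
  have hz0 : 1 ≤ ‖z‖ := c2.1.trans ((le_abs_self _).trans (coord_le z 2))
  have hz1 : ‖z‖ ≤ 3 * z 2 := by
    apply le_of_sq_le_sq _ (by linarith [c2.1])
    nlinarith [c0.1, c0.2, c1.1, c1.2, c2.1]
  have h3 : 1 / 3 * (z 2)⁻¹ ≤ ‖z‖⁻¹ := by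
    rw [one_div, ← mul_inv]; exact inv_anti₀ (by linarith) hz1
  have h4 : 0 ≤ 1 / 3 * (z 2)⁻¹ := by have := c2.1; positivity
  exact mul_le_mul hg h3 h4 (g_pos L y).le

lemma energy {L : ℝ} (hL : 1 ≤ L) (c : ℝ) :
    c ^ 2 * (L * log L / 48) ≤ ∫ x, ∫ y, c * g L x * (c * g L y) / ‖x - y‖ ^ 1 := by
  have e : ∀ x, ∫ y, c * g L x * (c * g L y) / ‖x - y‖ ^ 1 =
      c ^ 2 * (g L x * ∫ y, g L y * (‖x - y‖ ^ 1)⁻¹) := by
    intro x
    rw [← integral_const_mul, ← integral_const_mul]; congr 1; funext y; ring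
  simp_rw [e]
  rw [integral_const_mul]
  apply mul_le_mul_of_nonneg_left _ (sq_nonneg c)
  obtain ⟨i1, i2⟩ := prod_E (f := ![ind 1, ind 1, ind L]) (fun i => by
    fin_cases i
    exacts [ind_int 1, ind_int 1, ind_int L])
  simp only [Matrix.cons_val_zero, Matrix.cons_val_one, Matrix.cons_val, ind_integral zero_le_one,
    ind_integral (zero_le_one.trans hL), one_mul] at i1 i2
  have i3 : Integrable fun x => g L x * ∫ y, g L y * (‖x - y‖ ^ 1)⁻¹ := by
    refine (g_int hL).mul_bdd ?_ (Eventually.of_forall fun x => (pot_int (g_int hL) (C := 1)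
      (fun x => by rw [abs_of_pos (g_pos L x)]; exact g_le_one L x) (j := 1) (by norm_num) x).2)
    have := (g_cont L).measurable
    exact (StronglyMeasurable.integral_prod_right
      (f := fun x y : E3 => g L y * (‖x - y‖ ^ 1)⁻¹)
      (Measurable.stronglyMeasurable (by unfold Function.uncurry; fun_prop))).aestronglyMeasurable
  have e2 : L * log L / 48 = ∫ x : E3, log L / 48 * (ind 1 (x 0) * ind 1 (x 1) * ind L (x 2)) := by
    rw [integral_const_mul, i2]; ring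
  rw [e2]
  refine integral_mono (i1.const_mul _) i3 fun x => ?_
  have hp : 0 ≤ g L x * ∫ y, g L y * (‖x - y‖ ^ 1)⁻¹ :=
    mul_nonneg (g_pos L x).le (integral_nonneg fun y => by have := g_pos L y; positivity)
  by_cases c0 : x 0 ∈ Icc (0 : ℝ) 1
  swap
  · simpa only [ind, indicator_of_notMem c0, zero_mul, mul_zero] using hp
  by_cases c1 : x 1 ∈ Icc (0 : ℝ) 1
  swap
  · simpa only [ind, indicator_of_notMem c1, zero_mul, mul_zero] using hp
  by_cases c2 : x 2 ∈ Icc (0 : ℝ) L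
  swap
  · simpa only [ind, indicator_of_notMem c2, zero_mul, mul_zero] using hp
  simp only [ind, indicator_of_mem c0, indicator_of_mem c1, indicator_of_mem c2, Pi.one_apply,
    mul_one]
  have hg : 1 / 4 ≤ g L x :=
    g_ge hL (abs_le.2 ⟨by linarith [c0.1], c0.2⟩) (abs_le.2 ⟨by linarith [c1.1], c1.2⟩)
      (abs_le.2 ⟨by linarith [c2.1], c2.2⟩)
  have := mul_le_mul hg (pot_ge hL c0 c1 c2) (by have := Real.log_nonneg hL; positivity)
    (g_pos L x).le
  linarith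

noncomputable def u0 (L : ℝ) (ξ : X) : ℝ := exp (-∑ i, (![1, 1, L ^ 2] : Fin 3 → ℝ) i * ξ i ^ 2)

lemma u0_ft {L : ℝ} (hL : 1 ≤ L) (x : E3) :
    ∫ ξ, cos (dot ξ x) * u0 L ξ = π * √π / L * g L x := by
  have hb : ∀ i, 0 < (![1, 1, L ^ 2] : Fin 3 → ℝ) i := by
    intro i; fin_cases i <;> simp; positivity
  have h := gaussX hb fun i => x i
  have e : ∫ ξ, cos (dot ξ x) * u0 L ξ = ∫ v : X, exp (-∑ i, (![1, 1, L ^ 2] : Fin 3 → ℝ) i *
      v i ^ 2) * cos (∑ i, x i * v i) := by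
    congr 1; funext v
    simp only [u0, dot, mul_comm]
  rw [e, h, g_eq]
  simp only [Fin.prod_univ_three, Matrix.cons_val_zero, Matrix.cons_val_one, Matrix.cons_val,
    div_one, mul_one]
  rw [Real.sqrt_div pi_pos.le, Real.sqrt_sq (by linarith), neg_add, neg_add, Real.exp_add,
    Real.exp_add]
  have : √π * √π = π := Real.mul_self_sqrt pi_pos.le
  calc _ = (√π * √π) * √π / L * (exp (-(x 0 ^ 2 / 4)) * exp (-(x 1 ^ 2 / 4)) *
      exp (-(x 2 ^ 2 / (4 * L ^ 2)))) := by ring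
    _ = _ := by rw [this]

lemma exp_le_p (y : ℝ) : exp (-y ^ 2) ≤ 216 * p 3 y := by
  have h1 := cube_le (sq_nonneg y)
  have h2 : exp (y ^ 2 / 2) ≤ exp (y ^ 2) := Real.exp_le_exp.2 (by nlinarith [sq_nonneg y])
  rw [p, Real.exp_neg, ← div_eq_mul_inv, le_div_iff₀ (by positivity),
    inv_mul_le_iff₀ (Real.exp_pos _)]
  linarith

lemma u0_le (L : ℝ) (z : ℝ × X) : exp (-(τ z.1 * q z.2)) * u0 L z.2 ≤ 216 ^ 3 * Wt L z := by
  have h : exp (-(τ z.1 * q z.2)) * u0 L z.2 ≤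
      exp (-(ρ z.1 * z.2 0) ^ 2) * exp (-(ρ z.1 * z.2 1) ^ 2) * exp (-(L * z.2 2) ^ 2) := by
    rw [u0, ← Real.exp_add, ← Real.exp_add, ← Real.exp_add]
    apply Real.exp_le_exp.2
    simp only [Fin.sum_univ_three, Matrix.cons_val_zero, Matrix.cons_val_one, Matrix.cons_val,
      mul_pow, ρ_sq, q_eq]
    nlinarith [mul_nonneg (τ_nonneg z.1) (sq_nonneg (z.2 2))]
  refine h.trans ?_
  have a0 := p_pos 3 (ρ z.1 * z.2 0)
  have a1 := p_pos 3 (ρ z.1 * z.2 1)
  calc _ ≤ (216 * p 3 (ρ z.1 * z.2 0)) * (216 * p 3 (ρ z.1 * z.2 1)) * (216 * p 3 (L * z.2 2)) := by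
        gcongr <;> exact exp_le_p _
    _ = _ := by unfold Wt W; ring

end Pool.Agent.H.MP_e522c7_an
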