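import Pool.Agent.H.MP_e522c7_an.K

set_option autoImplicit false
open MeasureTheory Real Set Filter Topology

namespace Pool.Agent.H.MP_e522c7_an

lemma vol3 : ((3 : ℕ) : ℝ) * (volume (Metric.ball (0 : E3) 1)).toReal = 4 * π := by
  rw [EuclideanSpace.volume_ball_fin_three]
  simp only [ENNReal.ofReal_one, one_pow, one_mul]
  rw [ENNReal.toReal_ofReal (by positivity)]
  push_cast; ring

theorem main (H : ∀ n0 : E3 → ℝ,
      Continuous n0 → (∀ x, 0 ≤ n0 x) → (∃ C : ℝ, ∀ x, n0 x ≤ C) →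
      Integrable n0 → Integrable (fun x => ‖x‖ ^ 2 * n0 x) →
      (∫ x, ∫ y, n0 x * n0 y / ‖x - y‖ ^ (3 - 2)) >
        2 * ((3 : ℕ) : ℝ) * (∫ x, n0 x) *
          (((3 : ℕ) : ℝ) * (volume (Metric.ball (0 : E3) 1)).toReal) →
      ¬ ∃ n : ℝ → E3 → ℝ,
          n 0 = n0 ∧
          ContinuousOn (fun p : ℝ × E3 => n p.1 p.2) (Set.Ici (0 : ℝ) ×ˢ Set.univ) ∧
          ContDiffOn ℝ 2 (fun p : ℝ × E3 => n p.1 p.2) (Set.Ioi (0 : ℝ) ×ˢ Set.univ) ∧
          (∀ t : ℝ, 0 ≤ t → Integrable (n t)) ∧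
          (∀ T : ℝ, 0 < T → ∃ C : ℝ, ∀ t ∈ Set.Icc (0 : ℝ) T, ∀ x, |n t x| ≤ C) ∧
          (∀ t : ℝ, 0 < t → ∀ x : E3,
            deriv (fun s => n s x) t =
              (∑ i : Fin 3, iteratedFDeriv ℝ 2 (n t) x
                  ![EuclideanSpace.single i (1 : ℝ), EuclideanSpace.single i (1 : ℝ)])
              - fderiv ℝ (n t) x
                  ((-(1 / (((3 : ℕ) : ℝ) * (volume (Metric.ball (0 : E3) 1)).toReal))) •
                    ∫ y, (n t y / ‖x - y‖ ^ 3) • (x - y))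
              + n t x ^ 2)) : False := by
  have hD := D_pos
  have hπ : 0 < √π := Real.sqrt_pos.2 pi_pos
  have hπ' := pi_pos
  set c : ℝ := π * √π / (8 * D * 216 ^ 3) with hc
  have hc0 : 0 < c := by positivity
  set L : ℝ := exp (48 * 6144 / c + 1) with hLd
  have hL : 1 ≤ L := Real.one_le_exp (by positivity)
  have hL0 : 0 < L := by linarith
  set A0 : ℝ := L / (8 * D * 216 ^ 3) with hA0
  have hA : 0 < A0 := by positivity
  obtain ⟨u, hu, he, hf⟩ := exists_fix (L := L) (A := A0 * 216 ^ 3) (u0 := fun ξ => A0 * u0 L ξ) hL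
    (by positivity) (le_of_eq (by rw [hA0]; field_simp)) (by unfold u0; fun_prop)
    (fun ξ => by simp [u0]) (fun z => by
      have := u0_le L z
      have h0 : 0 < u0 L z.2 := Real.exp_pos _
      rw [abs_of_pos (by positivity)]
      nlinarith)
  obtain ⟨hd, d2, hd2, hdd⟩ := exists_deriv (u0 := fun ξ => A0 * u0 L ξ) hu hf
  have hd1 : Dom 2 (fun z => -q z.2 * u z + Bq u u z) := hu.negq.add (hu.Bq hu)
  have hu1 : Dom 1 u := hu.mono.mono
  have h0 : ∀ x, F 0 u (0, x) = c * g L x := by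
    intro x
    have : ∀ ξ, u (0, ξ) = A0 * u0 L ξ := fun ξ => by rw [hf]; simp [J, τ]
    simp only [F, this, add_zero]
    rw [show c * g L x = A0 * (π * √π / L * g L x) by rw [hc, hA0]; field_simp, ← u0_ft hL,
      ← integral_const_mul]
    congr 1; funext ξ; ring
  have hpos := F_nonneg hu he hd fun x => by rw [h0]; have := g_pos L x; positivity
  obtain ⟨C, hC⟩ := hu1.Fbdd
  obtain ⟨b, -, hb⟩ := hu1.2
  have hn : ∀ t x, F 0 u (t, x) = ∫ ξ, cos (dot ξ x) * u (t, ξ) := fun t x => by simp [F]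
  have hint : ∀ t, 0 ≤ t → Integrable fun x => F 0 u (t, x) := fun t ht =>
    n_int (hu1.int le_rfl t) (c := |b|) (fun ξ => (hb (t, ξ)).trans ((mul_le_mul_of_nonneg_right
      (le_abs_self b) (P_pos _ _).le).trans (mul_le_of_le_one_right (abs_nonneg b) (P_le_one _ _))))
      (hn t) ((hu1.Fcont 0).comp (Continuous.prodMk_right t)) (hpos t ht)
  refine H (fun x => c * g L x) (continuous_const.mul (g_cont L))
    (fun x => by have := g_pos L x; positivity)
    ⟨c, fun x => mul_le_of_le_one_right hc0.le (g_le_one L x)⟩ ((g_int hL).const_mul c) ?_ ?_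
    ⟨fun t x => F 0 u (t, x), funext h0, (hu1.Fcont 0).continuousOn,
      F_C2 hu hd1 hd2 hd hdd 0, hint, fun T _ => ⟨C, fun t _ x => hC 0 _⟩, fun t ht x => ?_⟩
  · refine (((g_int2 hL).sub (g_int hL)).const_mul c).congr (Eventually.of_forall fun x => ?_)
    simp only [Pi.sub_apply]; ring
  · rw [vol3, integral_const_mul]
    refine lt_of_lt_of_le ?_ (energy hL c)
    have h1 := g_mass hL
    have h2 : 0 ≤ ∫ x, g L x := integral_nonneg fun x => (g_pos L x).le
    have h3 : log L = 48 * 6144 / c + 1 := Real.log_exp _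
    have h4 : c ^ 2 * (L * log L / 48) = 6144 * (c * L) + c ^ 2 * L / 48 := by
      rw [h3]; field_simp
    have h5 : 0 < c ^ 2 * L / 48 := by positivity
    rw [h4]
    push_cast
    calc 2 * 3 * (c * ∫ x, g L x) * (4 * π) ≤ 2 * 3 * (c * (64 * L)) * (4 * 4) := by
          gcongr; exact pi_le_four
      _ < _ := by linarith
  · rw [(F_dt hu.mono hd1.mono hd 0 ht x).deriv, pde hu he,
      (F_dx hu.mono hd1.mono hd 0 ht x).fderiv, vol3]
    simp only [F_dxx hu hd1 hd 0 ht x]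
    congr 2
    rw [ContinuousLinearMap.sum_apply]
    refine Finset.sum_congr rfl fun j _ => ?_
    rw [ContinuousLinearMap.smul_apply, smul_eq_mul, map_smul,
      ← ContinuousLinearMap.integral_comp_comm _ (vec_int (hint t ht.le) (fun x => hC 0 _) x)]
    congr 1
    have := pot_eq (hu1.int le_rfl t) j (hu1.kint j t) (hn t) (hint t ht.le) (fun x => hC 0 _) x
    simp only [map_smul, smul_eq_mul, PiLp.proj_apply]
    rw [this, V]
    field_simp

end Pool.Agent.H.MP_e522c7_an
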